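import Mathlib

/-!
k-triangulations of a convex polygon with vertices 0, ..., n-1, their flip graph, and basic tools.
-/

namespace Pool.Agent.H88KTri

/-- The chords `e = (i, j)` and `f = (i', j')` (written with `i < j`, `i' < j'`) of a convex
polygon whose vertices are numbered in cyclic order cross in their interiors. -/
def Cross (e f : ℕ × ℕ) : Prop :=
  (e.1 < f.1 ∧ f.1 < e.2 ∧ e.2 < f.2) ∨ (f.1 < e.1 ∧ e.1 < f.2 ∧ f.2 < e.2)

/-- No `k + 1` chords of `T` cross pairwise. -/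
def CrossFree (k : ℕ) (T : Set (ℕ × ℕ)) : Prop :=
  ∀ S : Finset (ℕ × ℕ), (S : Set (ℕ × ℕ)) ⊆ T → (S : Set (ℕ × ℕ)).Pairwise Cross → S.card ≤ k

/-- `T` is a `k`-triangulation of the convex `n`-gon: a maximal set of chords `(i, j)`,
`i < j < n`, with no `k + 1` pairwise crossing members. -/
def IsKTri (n k : ℕ) (T : Set (ℕ × ℕ)) : Prop :=
  (∀ e ∈ T, e.1 < e.2 ∧ e.2 < n) ∧ CrossFree k T ∧
    ∀ e : ℕ × ℕ, e.1 < e.2 → e.2 < n → e ∉ T → ¬ CrossFree k (insert e T)

/-- `U` is obtained from `T` by removing one chord and inserting another one. -/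
def Swap (T U : Set (ℕ × ℕ)) : Prop :=
  ∃ e f : ℕ × ℕ, e ∈ T ∧ f ∉ T ∧ U = insert f (T \ {e})

theorem Swap.symm {T U : Set (ℕ × ℕ)} (h : Swap T U) : Swap U T := by
  obtain ⟨e, f, he, hf, rfl⟩ := h
  have hef : e ≠ f := fun h => hf (h ▸ he)
  refine ⟨f, e, by simp, by simp [hef], ?_⟩
  ext x
  simp only [Set.mem_insert_iff, Set.mem_sdiff, Set.mem_singleton_iff]
  constructor
  · intro hx
    by_cases hxe : x = e
    · exact Or.inl hxe
    · exact Or.inr ⟨Or.inr ⟨hx, hxe⟩, fun h => hf (h ▸ hx)⟩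
  · rintro (rfl | ⟨h | h, h'⟩)
    · exact he
    · exact absurd h h'
    · exact h.1

theorem Swap.ne {T U : Set (ℕ × ℕ)} (h : Swap T U) : T ≠ U := by
  obtain ⟨e, f, _, hf, h⟩ := h
  intro hTU
  apply hf
  rw [hTU, h]
  simp

/-- The flip graph of the `k`-triangulations of the convex `n`-gon: two of them are adjacent
when they differ by exchanging one chord for another. -/
def flipGraph (n k : ℕ) : SimpleGraph {T : Set (ℕ × ℕ) // IsKTri n k T} where
  Adj T U := Swap T.1 U.1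
  symm := ⟨fun _ _ h => h.symm⟩
  loopless := ⟨fun _ h => h.ne rfl⟩

theorem Cross.symm {e f : ℕ × ℕ} (h : Cross e f) : Cross f e := Or.symm h

theorem CrossFree.mono {k : ℕ} {X Y : Set (ℕ × ℕ)} (h : CrossFree k Y) (hXY : X ⊆ Y) :
    CrossFree k X := fun S hS hp => h S (hS.trans hXY) hp

theorem IsKTri.eq_of_subset {n k : ℕ} {X Y : Set (ℕ × ℕ)} (hX : IsKTri n k X)
    (hY : IsKTri n k Y) (h : X ⊆ Y) : X = Y := by
  refine Set.Subset.antisymm h fun e he => ?_
  by_contra hne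
  exact hX.2.2 e (hY.1 e he).1 (hY.1 e he).2 hne
    (hY.2.1.mono (Set.insert_subset he h))

theorem swap_of {X Y : Set (ℕ × ℕ)} {e f : ℕ × ℕ} (he : e ∈ X) (hf : f ∉ X) (hfY : f ∈ Y)
    (heY : e ∉ Y) (h1 : ∀ x ∈ X, x = e ∨ x ∈ Y) (h2 : ∀ x ∈ Y, x = f ∨ x ∈ X) : Swap X Y := by
  refine ⟨e, f, he, hf, ?_⟩
  ext x
  simp only [Set.mem_insert_iff, Set.mem_sdiff, Set.mem_singleton_iff]
  constructor
  · intro hx
    rcases h2 x hx with h | h
    · exact Or.inl h
    · exact Or.inr ⟨h, fun hxe => heY (hxe ▸ hx)⟩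
  · rintro (rfl | ⟨h, h'⟩)
    · exact hfY
    · exact (h1 x h).resolve_left h'

theorem Swap.spec {X Y : Set (ℕ × ℕ)} (h : Swap X Y) :
    ∃ e f : ℕ × ℕ, e ∈ X ∧ f ∉ X ∧ f ∈ Y ∧ e ∉ Y ∧ (∀ x ∈ X, x = e ∨ x ∈ Y) ∧
      (∀ x ∈ Y, x = f ∨ x ∈ X) := by
  obtain ⟨e, f, he, hf, rfl⟩ := h
  have hef : e ≠ f := fun h => hf (h ▸ he)
  refine ⟨e, f, he, hf, by simp, by simp [hef], fun x hx => ?_, fun x hx => ?_⟩
  · by_cases hxe : x = e
    · exact Or.inl hxe
    · exact Or.inr (Or.inr ⟨hx, hxe⟩)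
  · rcases hx with h | h
    · exact Or.inl h
    · exact Or.inr h.1

/-- Two `k`-triangulations that differ in at most one chord each are equal or adjacent. -/
theorem eq_or_swap {n k : ℕ} {X Y : Set (ℕ × ℕ)} (hX : IsKTri n k X) (hY : IsKTri n k Y)
    {e f : ℕ × ℕ} (h1 : ∀ x ∈ X, x = e ∨ x ∈ Y) (h2 : ∀ x ∈ Y, x = f ∨ x ∈ X) :
    X = Y ∨ Swap X Y := by
  by_cases hXY : X ⊆ Y
  · exact Or.inl (hX.eq_of_subset hY hXY)
  by_cases hYX : Y ⊆ X
  · exact Or.inl (hY.eq_of_subset hX hYX).symm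
  obtain ⟨x, hx, hx'⟩ := Set.not_subset.1 hXY
  obtain ⟨y, hy, hy'⟩ := Set.not_subset.1 hYX
  have hxe : x = e := (h1 x hx).resolve_right hx'
  have hyf : y = f := (h2 y hy).resolve_right hy'
  subst hxe hyf
  exact Or.inr (swap_of hx hy' hy hx' h1 h2)

theorem crossFree_one {X : Set (ℕ × ℕ)} :
    CrossFree 1 X ↔ ∀ e ∈ X, ∀ f ∈ X, ¬ Cross e f := by
  constructor
  · intro h e he f hf hc
    have hef : e ≠ f := by
      rintro rfl
      unfold Cross at hc
      omega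
    have := h {e, f} (by
      intro x hx
      simp only [Finset.coe_insert, Finset.coe_singleton, Set.mem_insert_iff,
        Set.mem_singleton_iff] at hx
      rcases hx with rfl | rfl <;> assumption) (by
      intro x hx y hy hxy
      simp only [Finset.coe_insert, Finset.coe_singleton, Set.mem_insert_iff,
        Set.mem_singleton_iff] at hx hy
      rcases hx with rfl | rfl <;> rcases hy with rfl | rfl
      · exact absurd rfl hxy
      · exact hc
      · exact hc.symm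
      · exact absurd rfl hxy)
    rw [Finset.card_pair hef] at this
    omega
  · intro h S hS hp
    rw [Finset.card_le_one]
    intro e he f hf
    by_contra hef
    exact h e (hS he) f (hS hf) (hp he hf hef)

theorem crossFree_two {X : Set (ℕ × ℕ)} :
    CrossFree 2 X ↔ ∀ e ∈ X, ∀ f ∈ X, ∀ g ∈ X, Cross e f → Cross e g → Cross f g → False := by
  constructor
  · intro h e he f hf g hg h1 h2 h3
    have hne : ∀ x y : ℕ × ℕ, Cross x y → x ≠ y := by
      rintro x y hc rfl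
      unfold Cross at hc
      omega
    have := h {e, f, g} (by
      intro x hx
      simp only [Finset.coe_insert, Finset.coe_singleton, Set.mem_insert_iff,
        Set.mem_singleton_iff] at hx
      rcases hx with rfl | rfl | rfl <;> assumption) (by
      intro x hx y hy hxy
      simp only [Finset.coe_insert, Finset.coe_singleton, Set.mem_insert_iff,
        Set.mem_singleton_iff] at hx hy
      rcases hx with rfl | rfl | rfl <;> rcases hy with rfl | rfl | rfl <;>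
        first
          | exact absurd rfl hxy
          | assumption
          | (apply Cross.symm; assumption))
    rw [Finset.card_eq_three.2 ⟨e, f, g, hne _ _ h1, hne _ _ h2, hne _ _ h3, rfl⟩] at this
    omega
  · intro h S hS hp
    by_contra hc
    obtain ⟨e, f, g, he, hf, hg, h1, h2, h3⟩ := Finset.two_lt_card_iff.1 (not_le.1 hc)
    exact h e (hS he) f (hS hf) g (hS hg) (hp he hf h1) (hp he hg h2) (hp hf hg h3)

theorem crossFree_two_sorted {X : Set (ℕ × ℕ)}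
    (h : ∀ a1 a2 a3 b1 b2 b3 : ℕ, (a1, b1) ∈ X → (a2, b2) ∈ X → (a3, b3) ∈ X →
      a1 < a2 → a2 < a3 → a3 < b1 → b1 < b2 → b2 < b3 → False) : CrossFree 2 X := by
  rw [crossFree_two]
  rintro ⟨e1, e2⟩ he ⟨f1, f2⟩ hf ⟨g1, g2⟩ hg h1 h2 h3
  unfold Cross at h1 h2 h3
  simp only at h1 h2 h3
  rcases h1 with h1 | h1 <;> rcases h2 with h2 | h2 <;> rcases h3 with h3 | h3
  · exact h _ _ _ _ _ _ he hf hg (by omega) (by omega) (by omega) (by omega) (by omega)
  · exact h _ _ _ _ _ _ he hg hf (by omega) (by omega) (by omega) (by omega) (by omega)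
  · omega
  · exact h _ _ _ _ _ _ hg he hf (by omega) (by omega) (by omega) (by omega) (by omega)
  · exact h _ _ _ _ _ _ hf he hg (by omega) (by omega) (by omega) (by omega) (by omega)
  · omega
  · exact h _ _ _ _ _ _ hf hg he (by omega) (by omega) (by omega) (by omega) (by omega)
  · exact h _ _ _ _ _ _ hg hf he (by omega) (by omega) (by omega) (by omega) (by omega)

theorem isKTri_one {n : ℕ} {X : Set (ℕ × ℕ)} (h0 : ∀ e ∈ X, e.1 < e.2 ∧ e.2 < n)
    (h1 : ∀ a1 a2 b1 b2 : ℕ, (a1, b1) ∈ X → (a2, b2) ∈ X → a1 < a2 → a2 < b1 → b1 < b2 → False)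
    (h2 : ∀ x y : ℕ, x < y → y < n → (x, y) ∉ X → ∃ f ∈ X, Cross (x, y) f) : IsKTri n 1 X := by
  refine ⟨h0, ?_, ?_⟩
  · rw [crossFree_one]
    rintro ⟨e1, e2⟩ he ⟨f1, f2⟩ hf (hc | hc)
    · exact h1 _ _ _ _ he hf hc.1 hc.2.1 hc.2.2
    · exact h1 _ _ _ _ hf he hc.1 hc.2.1 hc.2.2
  · rintro ⟨x, y⟩ hxy hy hn hfree
    obtain ⟨f, hf, hc⟩ := h2 x y hxy hy hn
    exact crossFree_one.1 hfree _ (Set.mem_insert _ _) _ (Set.mem_insert_of_mem _ hf) hc

theorem IsKTri.exists_cross {n : ℕ} {X : Set (ℕ × ℕ)} (hX : IsKTri n 1 X) {x y : ℕ}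
    (hxy : x < y) (hy : y < n) (hn : (x, y) ∉ X) : ∃ f ∈ X, Cross (x, y) f := by
  by_contra hc
  push Not at hc
  apply hX.2.2 (x, y) hxy hy hn
  rw [crossFree_one]
  intro e he f hf hcr
  rcases he with rfl | he <;> rcases hf with rfl | hf
  · unfold Cross at hcr
    omega
  · exact hc f hf hcr
  · exact hc e he hcr.symm
  · exact crossFree_one.1 hX.2.1 e he f hf hcr

theorem isKTri_two {n : ℕ} {X : Set (ℕ × ℕ)} (h0 : ∀ e ∈ X, e.1 < e.2 ∧ e.2 < n)
    (h1 : ∀ a1 a2 a3 b1 b2 b3 : ℕ, (a1, b1) ∈ X → (a2, b2) ∈ X → (a3, b3) ∈ X →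
      a1 < a2 → a2 < a3 → a3 < b1 → b1 < b2 → b2 < b3 → False)
    (h2 : ∀ x y : ℕ, x < y → y < n → (x, y) ∉ X →
      ∃ f ∈ X, ∃ g ∈ X, Cross (x, y) f ∧ Cross (x, y) g ∧ Cross f g) : IsKTri n 2 X := by
  refine ⟨h0, crossFree_two_sorted h1, ?_⟩
  rintro ⟨x, y⟩ hxy hy hn hfree
  obtain ⟨f, hf, g, hg, c1, c2, c3⟩ := h2 x y hxy hy hn
  exact crossFree_two.1 hfree _ (Set.mem_insert _ _) _ (Set.mem_insert_of_mem _ hf) _
    (Set.mem_insert_of_mem _ hg) c1 c2 c3

/-- There is a flip path of length at most `l` from `X` to `Y` all of whose members contain `C`. -/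
inductive R (n k : ℕ) (C : Set (ℕ × ℕ)) : Set (ℕ × ℕ) → Set (ℕ × ℕ) → ℕ → Prop
  | nil (X : Set (ℕ × ℕ)) (l : ℕ) : IsKTri n k X → C ⊆ X → R n k C X X l
  | cons (X X' Y : Set (ℕ × ℕ)) (l : ℕ) : IsKTri n k X → C ⊆ X → Swap X X' →
      R n k C X' Y l → R n k C X Y (l + 1)

theorem R.left {n k : ℕ} {C X Y : Set (ℕ × ℕ)} {l : ℕ} (h : R n k C X Y l) :
    IsKTri n k X ∧ C ⊆ X := by
  cases h with
  | nil _ _ h1 h2 => exact ⟨h1, h2⟩
  | cons _ _ _ _ h1 h2 _ _ => exact ⟨h1, h2⟩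

theorem R.succ {n k : ℕ} {C X Y : Set (ℕ × ℕ)} {l : ℕ} (h : R n k C X Y l) :
    R n k C X Y (l + 1) := by
  induction h with
  | nil X l h1 h2 => exact R.nil X _ h1 h2
  | cons X X' Y l h1 h2 h3 _ ih => exact R.cons X X' Y _ h1 h2 h3 ih

theorem R.le {n k : ℕ} {C X Y : Set (ℕ × ℕ)} {l l' : ℕ} (h : R n k C X Y l) (hl : l ≤ l') :
    R n k C X Y l' := by
  induction hl with
  | refl => exact h
  | step _ ih => exact ih.succ

theorem R.lazy {n k : ℕ} {C X X' Y : Set (ℕ × ℕ)} {l : ℕ} (hX : IsKTri n k X) (hC : C ⊆ X)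
    (h1 : X = X' ∨ Swap X X') (h : R n k C X' Y l) : R n k C X Y (l + 1) := by
  rcases h1 with rfl | h1
  · exact h.succ
  · exact R.cons X X' Y l hX hC h1 h

theorem R.trans {n k : ℕ} {C X Y Z : Set (ℕ × ℕ)} {l l' : ℕ} (h : R n k C X Y l)
    (h' : R n k C Y Z l') : R n k C X Z (l + l') := by
  induction h with
  | nil X l _ _ => exact h'.le (by omega)
  | cons X X' Y l h1 h2 h3 _ ih =>
    have := R.cons X X' Z _ h1 h2 h3 (ih h')
    rwa [show l + l' + 1 = l + 1 + l' by omega] at this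

theorem R.weaken {n k : ℕ} {C D X Y : Set (ℕ × ℕ)} {l : ℕ} (h : R n k C X Y l) (hD : D ⊆ C) :
    R n k D X Y l := by
  induction h with
  | nil X l h1 h2 => exact R.nil X _ h1 (hD.trans h2)
  | cons X X' Y l h1 h2 h3 _ ih => exact R.cons X X' Y _ h1 (hD.trans h2) h3 ih

/-- A chain of single swaps indexed by an interval gives a path. -/
theorem R.chain {n k : ℕ} {C : Set (ℕ × ℕ)} (F : ℕ → Set (ℕ × ℕ)) (l : ℕ)
    (h1 : ∀ t ≤ l, IsKTri n k (F t) ∧ C ⊆ F t) (h2 : ∀ t < l, Swap (F t) (F (t + 1))) :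
    R n k C (F 0) (F l) l := by
  induction l with
  | zero => exact R.nil _ _ (h1 0 le_rfl).1 (h1 0 le_rfl).2
  | succ l ih =>
    have a := ih (fun t ht => h1 t (by omega)) (fun t ht => h2 t (by omega))
    have b : R n k C (F l) (F (l + 1)) (0 + 1) :=
      R.cons _ _ _ _ (h1 l (by omega)).1 (h1 l (by omega)).2 (h2 l (by omega))
        (R.nil _ _ (h1 (l + 1) le_rfl).1 (h1 (l + 1) le_rfl).2)
    simpa using a.trans b

theorem R.card_le {n k : ℕ} {C X Y : Set (ℕ × ℕ)} {l : ℕ} (h : R n k C X Y l) :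
    ∀ S : Finset (ℕ × ℕ), (∀ x ∈ S, x ∈ X ∧ x ∉ Y) → S.card ≤ l := by
  induction h with
  | nil X l _ _ =>
    intro S hS
    have : S = ∅ := Finset.eq_empty_of_forall_notMem fun x hx => (hS x hx).2 (hS x hx).1
    simp [this]
  | cons X X' Y l _ _ h3 _ ih =>
    intro S hS
    obtain ⟨e, f, -, -, -, -, h5, -⟩ := h3.spec
    have := ih (S.erase e) fun x hx => by
      rw [Finset.mem_erase] at hx
      exact ⟨(h5 x (hS x hx.2).1).resolve_left hx.1, (hS x hx.2).2⟩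
    have h6 := Finset.pred_card_le_card_erase (s := S) (a := e)
    omega

theorem R.of_walk {n k : ℕ} {C : Set (ℕ × ℕ)} {X Y : {T : Set (ℕ × ℕ) // IsKTri n k T}}
    (w : (flipGraph n k).Walk X Y) (hw : ∀ Z ∈ w.support, C ⊆ Z.1) :
    R n k C X.1 Y.1 w.length := by
  induction w with
  | nil => exact R.nil _ _ (Subtype.property _) (hw _ (by simp))
  | cons h p ih =>
    exact R.cons _ _ _ _ (Subtype.property _) (hw _ (by simp)) h
      (ih fun Z hZ => hw Z (by simp [hZ]))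

theorem R.to_walk {n k : ℕ} {C X Y : Set (ℕ × ℕ)} {l : ℕ} (h : R n k C X Y l) :
    ∀ (hX : IsKTri n k X) (hY : IsKTri n k Y),
      ∃ w : (flipGraph n k).Walk ⟨X, hX⟩ ⟨Y, hY⟩, w.length ≤ l ∧ ∀ Z ∈ w.support, C ⊆ Z.1 := by
  induction h with
  | nil X l _ h2 =>
    intro hX hY
    exact ⟨SimpleGraph.Walk.nil, by simp, by simpa using h2⟩
  | cons X X' Y l _ h2 h3 h4 ih =>
    intro hX hY
    obtain ⟨w, hw, hw'⟩ := ih h4.left.1 hY
    have hadj : (flipGraph n k).Adj ⟨X, hX⟩ ⟨X', h4.left.1⟩ := h3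
    refine ⟨SimpleGraph.Walk.cons hadj w, by simpa using hw, ?_⟩
    intro Z hZ
    simp only [SimpleGraph.Walk.support_cons, List.mem_cons] at hZ
    rcases hZ with rfl | hZ
    · exact h2
    · exact hw' Z hZ

/-- A path that loses a common chord is longer than the number of chords to be removed. -/
theorem card_lt_of_walk {n k : ℕ} {X Y : {T : Set (ℕ × ℕ) // IsKTri n k T}}
    (w : (flipGraph n k).Walk X Y) {v : ℕ × ℕ} (hY : v ∈ Y.1) :
    v ∈ X.1 → (∃ Z ∈ w.support, v ∉ Z.1) →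
      ∀ S : Finset (ℕ × ℕ), (∀ x ∈ S, x ∈ X.1 ∧ x ∉ Y.1) → S.card + 1 ≤ w.length := by
  induction w with
  | nil =>
    rintro hX ⟨Z, hZ, hv⟩
    simp only [SimpleGraph.Walk.support_nil, List.mem_singleton] at hZ
    exact absurd hX (hZ ▸ hv)
  | @cons X X' Y h p ih =>
    rintro hX ⟨Z, hZ, hv⟩ S hS
    obtain ⟨e, f, -, -, -, -, h5, -⟩ := Swap.spec h
    simp only [SimpleGraph.Walk.length_cons]
    by_cases hve : v = e
    · have := (R.of_walk (C := ∅) p (by simp)).card_le S fun x hx =>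
        ⟨(h5 x (hS x hx).1).resolve_left (fun hxe => (hS x hx).2 (hxe ▸ hve ▸ hY)), (hS x hx).2⟩
      omega
    · simp only [SimpleGraph.Walk.support_cons, List.mem_cons] at hZ
      have hZ' : Z ∈ p.support := by
        rcases hZ with rfl | hZ
        · exact absurd hX hv
        · exact hZ
      have := ih hY ((h5 v hX).resolve_left hve) ⟨Z, hZ', hv⟩ (S.erase e) fun x hx => by
        rw [Finset.mem_erase] at hx
        exact ⟨(h5 x (hS x hx.2).1).resolve_left hx.1, (hS x hx.2).2⟩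
      have h6 := Finset.pred_card_le_card_erase (s := S) (a := e)
      omega

end Pool.Agent.H88KTri
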