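import Pool.Agent.H88KTri.Basic

/-!
The face of (k+1)-triangulations of the (n+2)-gon containing all chords at vertex 0 is a copy of the
k-triangulations of the n-gon. Contraction of a boundary edge of a triangulation.
-/

namespace Pool.Agent.H88KTri

/-- Shift of a chord into the bigger polygon. -/
def lift (e : ℕ × ℕ) : ℕ × ℕ := (e.1 + 1, e.2 + 2)

theorem lift_inj : Function.Injective lift := by
  rintro ⟨a, b⟩ ⟨c, d⟩ h
  simp only [lift, Prod.mk.injEq] at h
  ext <;> simp <;> omega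

/-- All chords at vertex 0, all sides, and the shifted chords of `T`. -/
def cone (n : ℕ) (T : Set (ℕ × ℕ)) : Set (ℕ × ℕ) :=
  {e | (e.1 = 0 ∧ 0 < e.2 ∧ e.2 < n + 2) ∨ (e.2 = e.1 + 1 ∧ e.2 < n + 2) ∨
    (1 ≤ e.1 ∧ 2 ≤ e.2 ∧ (e.1 - 1, e.2 - 2) ∈ T)}

/-- The inverse operation. -/
def uncone (X : Set (ℕ × ℕ)) : Set (ℕ × ℕ) := {e | e.1 < e.2 ∧ lift e ∈ X}

theorem mem_cone {n : ℕ} {T : Set (ℕ × ℕ)} {i j : ℕ} : (i, j) ∈ cone n T ↔
    (i = 0 ∧ 0 < j ∧ j < n + 2) ∨ (j = i + 1 ∧ j < n + 2) ∨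
      (1 ≤ i ∧ 2 ≤ j ∧ (i - 1, j - 2) ∈ T) := Iff.rfl

theorem lift_mem_cone {n : ℕ} {T : Set (ℕ × ℕ)} {e : ℕ × ℕ} (he : e.1 < e.2) :
    lift e ∈ cone n T ↔ e ∈ T := by
  obtain ⟨i, j⟩ := e
  simp only [lift, mem_cone] at he ⊢
  constructor
  · rintro (h | h | h)
    · omega
    · omega
    · simpa using h.2.2
  · intro h
    exact Or.inr (Or.inr ⟨by omega, by omega, by simpa using h⟩)

theorem uncone_cone {n : ℕ} {T : Set (ℕ × ℕ)} (hT : ∀ e ∈ T, e.1 < e.2) :
    uncone (cone n T) = T := by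
  ext e
  constructor
  · rintro ⟨h1, h2⟩
    exact (lift_mem_cone h1).1 h2
  · intro h
    exact ⟨hT e h, (lift_mem_cone (hT e h)).2 h⟩

theorem cone_mono {n : ℕ} {T U : Set (ℕ × ℕ)} (h : T ⊆ U) : cone n T ⊆ cone n U := by
  rintro ⟨i, j⟩ (h1 | h1 | h1)
  · exact Or.inl h1
  · exact Or.inr (Or.inl h1)
  · exact Or.inr (Or.inr ⟨h1.1, h1.2.1, h h1.2.2⟩)

theorem cone_inter {n : ℕ} {T U : Set (ℕ × ℕ)} : cone n T ∩ cone n U = cone n (T ∩ U) := by
  ext ⟨i, j⟩
  simp only [Set.mem_inter_iff, mem_cone]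
  tauto

theorem crossFree_uncone {n k : ℕ} {X : Set (ℕ × ℕ)} (h0 : cone n ∅ ⊆ X)
    (hX : ∀ e ∈ X, e.2 < n + 2) (h : CrossFree (k + 1) X) : CrossFree k (uncone X) := by
  intro S hS hp
  rcases S.eq_empty_or_nonempty with rfl | hne
  · simp
  obtain ⟨m, hm, hmax⟩ := S.exists_max_image (fun e => e.1) hne
  have hlt : ∀ e ∈ S, m.1 < e.2 := by
    intro e he
    by_cases hem : e = m
    · subst hem
      exact (hS he).1
    · have h1 := hp he hm hem
      have h2 := hmax e he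
      unfold Cross at h1
      omega
  have hnot : (0, m.1 + 2) ∉ S.image lift := by
    simp only [Finset.mem_image, lift, Prod.mk.injEq, not_exists, not_and]
    intro x _ hx
    omega
  have := h (insert (0, m.1 + 2) (S.image lift)) (by
    intro x hx
    simp only [Finset.coe_insert, Finset.coe_image, Set.mem_insert_iff, Set.mem_image,
      Finset.mem_coe] at hx
    rcases hx with rfl | ⟨e, he, rfl⟩
    · apply h0
      have h1 := hX _ (hS hm).2
      have h2 := hlt m hm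
      simp only [lift] at h1
      exact Or.inl ⟨rfl, by simp, by simp only; omega⟩
    · exact (hS he).2) (by
    intro x hx y hy hxy
    simp only [Finset.coe_insert, Finset.coe_image, Set.mem_insert_iff, Set.mem_image,
      Finset.mem_coe] at hx hy
    rcases hx with rfl | ⟨e, he, rfl⟩ <;> rcases hy with rfl | ⟨f, hf, rfl⟩
    · exact absurd rfl hxy
    · have h1 := hlt f hf
      have h2 := hmax f hf
      left
      simp only [lift]
      omega
    · have h1 := hlt e he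
      have h2 := hmax e he
      right
      simp only [lift]
      omega
    · have h1 := hp he hf (fun h => hxy (h ▸ rfl))
      unfold Cross at h1 ⊢
      simp only [lift]
      omega)
  rw [Finset.card_insert_of_notMem hnot, Finset.card_image_of_injective _ lift_inj] at this
  omega

theorem crossFree_of_uncone {k : ℕ} {X : Set (ℕ × ℕ)} (h : CrossFree k (uncone X)) :
    CrossFree (k + 1) X := by
  intro S hS hp
  rcases S.eq_empty_or_nonempty with rfl | hne
  · simp
  obtain ⟨m, hm, hmin⟩ := S.exists_min_image (fun e => e.1) hne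
  have hlt : ∀ e ∈ S.erase m, m.1 < e.1 ∧ e.1 < m.2 ∧ m.2 < e.2 := by
    intro e he
    rw [Finset.mem_erase] at he
    have h1 := hp he.2 hm he.1
    have h2 := hmin e he.2
    unfold Cross at h1
    omega
  have := h ((S.erase m).image fun e => (e.1 - 1, e.2 - 2)) (by
    intro x hx
    simp only [Finset.coe_image, Set.mem_image, Finset.mem_coe] at hx
    obtain ⟨e, he, rfl⟩ := hx
    have h1 := hlt e he
    refine ⟨by simp only; omega, ?_⟩
    have : lift (e.1 - 1, e.2 - 2) = e := by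
      ext <;> simp only [lift] <;> omega
    rw [this]
    exact hS (Finset.mem_of_mem_erase he)) (by
    intro x hx y hy hxy
    simp only [Finset.coe_image, Set.mem_image, Finset.mem_coe] at hx hy
    obtain ⟨e, he, rfl⟩ := hx
    obtain ⟨f, hf, rfl⟩ := hy
    have h1 := hlt e he
    have h2 := hlt f hf
    have h3 := hp (Finset.mem_of_mem_erase he) (Finset.mem_of_mem_erase hf)
      (fun h => hxy (h ▸ rfl))
    unfold Cross at h3 ⊢
    simp only
    omega)
  rw [Finset.card_image_of_injOn (by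
    intro e he f hf hef
    have h1 := hlt e he
    have h2 := hlt f hf
    simp only [Prod.mk.injEq] at hef
    ext <;> omega), Finset.card_erase_of_mem hm] at this
  omega

theorem uncone_insert {X : Set (ℕ × ℕ)} {e : ℕ × ℕ} (he : e.1 < e.2) :
    uncone (insert (lift e) X) = insert e (uncone X) := by
  ext x
  simp only [uncone, Set.mem_ofPred_eq, Set.mem_insert_iff]
  constructor
  · rintro ⟨h1, h2 | h2⟩
    · exact Or.inl (lift_inj h2)
    · exact Or.inr ⟨h1, h2⟩
  · rintro (rfl | ⟨h1, h2⟩)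
    · exact ⟨he, Or.inl rfl⟩
    · exact ⟨h1, Or.inr h2⟩

theorem IsKTri.uncone {n k : ℕ} {X : Set (ℕ × ℕ)} (hX : IsKTri (n + 2) (k + 1) X)
    (h0 : cone n ∅ ⊆ X) : IsKTri n k (uncone X) := by
  refine ⟨fun e he => ⟨he.1, ?_⟩, crossFree_uncone h0 (fun e he => (hX.1 e he).2) hX.2.1, ?_⟩
  · have := (hX.1 _ he.2).2
    simp only [lift] at this
    omega
  · intro e h1 h2 h3 hfree
    rw [← uncone_insert h1] at hfree
    refine hX.2.2 (lift e) ?_ ?_ (fun h => h3 ⟨h1, h⟩) (crossFree_of_uncone hfree)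
    · simp only [lift]
      omega
    · simp only [lift]
      omega

theorem cone_chord {n : ℕ} {T : Set (ℕ × ℕ)} (hT : ∀ e ∈ T, e.1 < e.2 ∧ e.2 < n) :
    ∀ e ∈ cone n T, e.1 < e.2 ∧ e.2 < n + 2 := by
  rintro ⟨i, j⟩ (h | h | h)
  · simp only at h ⊢
    omega
  · simp only at h ⊢
    omega
  · have := hT _ h.2.2
    simp only at h this ⊢
    omega

theorem IsKTri.cone {n k : ℕ} {T : Set (ℕ × ℕ)} (hT : IsKTri n k T) :
    IsKTri (n + 2) (k + 1) (cone n T) := by
  have hu := uncone_cone (n := n) fun e he => (hT.1 e he).1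
  refine ⟨cone_chord hT.1, crossFree_of_uncone (hu.symm ▸ hT.2.1), ?_⟩
  rintro ⟨i, j⟩ h1 h2 h3 hfree
  simp only [mem_cone, not_or, not_and] at h1 h2 h3
  have hl : (i, j) = lift (i - 1, j - 2) := by
    ext <;> simp only [lift] <;> omega
  have hc : ((i - 1, j - 2) : ℕ × ℕ).1 < ((i - 1, j - 2) : ℕ × ℕ).2 := by
    simp only
    omega
  have := crossFree_uncone (n := n) ((cone_mono (Set.empty_subset T)).trans
    (Set.subset_insert _ _)) (by
      rintro e (rfl | he)
      · exact h2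
      · exact (cone_chord hT.1 e he).2) hfree
  rw [hl, uncone_insert hc, hu] at this
  exact hT.2.2 _ hc (by simp only; omega) (h3.2.2 (by omega) (by omega)) this

theorem Swap.cone {n k : ℕ} {X Y : Set (ℕ × ℕ)} (h : Swap X Y) (hX : IsKTri n k X)
    (hY : IsKTri n k Y) : Swap (cone n X) (cone n Y) := by
  obtain ⟨e, f, he, hf, hfY, heY, h1, h2⟩ := h.spec
  have key : ∀ (X Y : Set (ℕ × ℕ)) (e : ℕ × ℕ), (∀ x ∈ X, x = e ∨ x ∈ Y) →
      ∀ x ∈ H88KTri.cone n X, x = lift e ∨ x ∈ H88KTri.cone n Y := by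
    rintro X Y e h ⟨i, j⟩ (hx | hx | hx)
    · exact Or.inr (Or.inl hx)
    · exact Or.inr (Or.inr (Or.inl hx))
    · rcases h _ hx.2.2 with h' | h'
      · left
        rw [← h']
        simp only at hx
        ext <;> simp only [lift] <;> omega
      · exact Or.inr (Or.inr (Or.inr ⟨hx.1, hx.2.1, h'⟩))
  have a := (hX.1 e he).1
  have b := (hY.1 f hfY).1
  exact swap_of ((lift_mem_cone a).2 he) (fun h => hf ((lift_mem_cone b).1 h))
    ((lift_mem_cone b).2 hfY) (fun h => heY ((lift_mem_cone a).1 h)) (key X Y e h1) (key Y X f h2)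

theorem R.cone {n k : ℕ} {C X Y : Set (ℕ × ℕ)} {l : ℕ} (h : R n k C X Y l) :
    R (n + 2) (k + 1) (cone n C) (cone n X) (cone n Y) l := by
  induction h with
  | nil X l h1 h2 => exact R.nil _ _ h1.cone (cone_mono h2)
  | cons X X' Y l h1 h2 h3 h4 ih =>
    exact R.cons _ _ _ _ h1.cone (cone_mono h2) (h3.cone h1 h4.left.1) ih

theorem R.uncone {n k : ℕ} {D X Y : Set (ℕ × ℕ)} {l : ℕ} (h : R (n + 2) (k + 1) D X Y l)
    (hD : H88KTri.cone n ∅ ⊆ D) : R n k ∅ (uncone X) (uncone Y) l := by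
  induction h with
  | nil X l h1 h2 => exact R.nil _ _ (h1.uncone (hD.trans h2)) (Set.empty_subset _)
  | cons X X' Y l h1 h2 h3 h4 ih =>
    obtain ⟨e, f, -, -, -, -, h5, h6⟩ := h3.spec
    have key : ∀ (X Y : Set (ℕ × ℕ)) (e : ℕ × ℕ), (∀ x ∈ X, x = e ∨ x ∈ Y) →
        ∀ x ∈ H88KTri.uncone X, x = (e.1 - 1, e.2 - 2) ∨ x ∈ H88KTri.uncone Y := by
      rintro X Y e h x ⟨hx, hx'⟩
      rcases h _ hx' with h' | h'
      · left
        rw [← h']
        simp [lift]
      · exact Or.inr ⟨hx, h'⟩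
    exact R.lazy (h1.uncone (hD.trans h2)) (Set.empty_subset _)
      (eq_or_swap (h1.uncone (hD.trans h2)) (h4.left.1.uncone (hD.trans h4.left.2))
        (key X X' e h5) (key X' X f h6)) ih

/-- Merge the vertices `v` and `v + 1`. -/
def ph (v x : ℕ) : ℕ := if x ≤ v then x else x - 1

theorem ph_cases (v x : ℕ) : (x ≤ v ∧ ph v x = x) ∨ (v < x ∧ ph v x + 1 = x) := by
  unfold ph
  split_ifs <;> omega

/-- Contraction of the side `(v, v + 1)`. -/
def contr (v : ℕ) (T : Set (ℕ × ℕ)) : Set (ℕ × ℕ) :=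
  {e | e.1 < e.2 ∧ ∃ x ∈ T, e = (ph v x.1, ph v x.2)}

theorem IsKTri.contr {n v : ℕ} {T : Set (ℕ × ℕ)} (hT : IsKTri (n + 1) 1 T) (hv : v < n) :
    IsKTri n 1 (contr v T) := by
  have hc := crossFree_one.1 hT.2.1
  have mem : ∀ i j : ℕ, (i, j) ∈ T → ph v i < ph v j → (ph v i, ph v j) ∈ H88KTri.contr v T :=
    fun i j h h' => ⟨h', (i, j), h, rfl⟩
  refine isKTri_one ?_ ?_ ?_
  · rintro e ⟨h1, x, hx, rfl⟩
    have := hT.1 x hx
    refine ⟨h1, ?_⟩
    simp only [ph]
    split_ifs <;> omega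
  · rintro a1 a2 b1 b2 ⟨-, x, hx, h1⟩ ⟨-, y, hy, h2⟩ h3 h4 h5
    apply hc x hx y hy
    simp only [Prod.mk.injEq, ph] at h1 h2
    left
    obtain ⟨h11, h12⟩ := h1
    obtain ⟨h21, h22⟩ := h2
    split_ifs at h11 h12 h21 h22 <;> omega
  · intro x y hxy hy hn
    by_contra hno
    push Not at hno
    have pre : ∀ i j : ℕ, ph v i = x → ph v j = y → j < n + 1 →
        ∃ p q : ℕ, (p, q) ∈ T ∧ Cross (i, j) (p, q) ∧ ¬ Cross (x, y) (ph v p, ph v q) := by
      intro i j hi hj hjn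
      have hij : i < j := by
        simp only [ph] at hi hj
        split_ifs at hi hj <;> omega
      obtain ⟨⟨p, q⟩, hf, hcr⟩ := hT.exists_cross hij hjn (fun h => hn (by
        have := mem i j h (by omega)
        rwa [hi, hj] at this))
      refine ⟨p, q, hf, hcr, fun h => hno _ (mem p q hf ?_) h⟩
      unfold Cross at h
      simp only at h
      omega
    by_cases hx : x = v
    · obtain ⟨p, q, h1, h2, h3⟩ := pre v (y + 1) (by simp [ph, hx])
        (by simp only [ph]; split_ifs <;> omega) (by omega)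
      obtain ⟨p', q', h1', h2', h3'⟩ := pre (v + 1) (y + 1) (by simp [ph, hx])
        (by simp only [ph]; split_ifs <;> omega) (by omega)
      apply hc _ h1 _ h1'
      have e1 := ph_cases v p
      have e2 := ph_cases v q
      have e3 := ph_cases v p'
      have e4 := ph_cases v q'
      clear pre hno mem hc hT hn h1 h1'
      unfold Cross at h2 h3 h2' h3' ⊢
      dsimp only at h2 h3 h2' h3' ⊢
      omega
    by_cases hy' : y = v
    · obtain ⟨p, q, h1, h2, h3⟩ := pre x v (by simp only [ph]; split_ifs <;> omega)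
        (by simp [ph, hy']) (by omega)
      obtain ⟨p', q', h1', h2', h3'⟩ := pre x (v + 1) (by simp only [ph]; split_ifs <;> omega)
        (by simp [ph, hy']) (by omega)
      apply hc _ h1 _ h1'
      have e1 := ph_cases v p
      have e2 := ph_cases v q
      have e3 := ph_cases v p'
      have e4 := ph_cases v q'
      clear pre hno mem hc hT hn h1 h1'
      unfold Cross at h2 h3 h2' h3' ⊢
      dsimp only at h2 h3 h2' h3' ⊢
      omega
    · obtain ⟨p, q, h1, h2, h3⟩ := pre (if x < v then x else x + 1) (if y < v then y else y + 1)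
        (by simp only [ph]; split_ifs <;> omega) (by simp only [ph]; split_ifs <;> omega)
        (by split_ifs <;> omega)
      have e1 := ph_cases v p
      have e2 := ph_cases v q
      clear pre hno mem hc hT hn h1
      unfold Cross at h2 h3
      dsimp only at h2 h3
      split_ifs at h2 <;> omega

theorem contr_sub {v : ℕ} {X Y : Set (ℕ × ℕ)} {e : ℕ × ℕ} (h : ∀ x ∈ X, x = e ∨ x ∈ Y) :
    ∀ x ∈ contr v X, x = (ph v e.1, ph v e.2) ∨ x ∈ contr v Y := by
  rintro x ⟨h1, y, hy, rfl⟩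
  rcases h y hy with rfl | h'
  · exact Or.inl rfl
  · exact Or.inr ⟨h1, y, h', rfl⟩

theorem R.contr {n v : ℕ} {X Y : Set (ℕ × ℕ)} {l : ℕ} (h : R (n + 1) 1 ∅ X Y l) (hv : v < n) :
    R n 1 ∅ (contr v X) (contr v Y) l := by
  induction h with
  | nil X l h1 _ => exact R.nil _ _ (h1.contr hv) (Set.empty_subset _)
  | cons X X' Y l h1 _ h3 h4 ih =>
    obtain ⟨e, f, -, -, -, -, h5, h6⟩ := h3.spec
    exact R.lazy (h1.contr hv) (Set.empty_subset _)
      (eq_or_swap (h1.contr hv) (h4.left.1.contr hv) (contr_sub h5) (contr_sub h6)) ih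

/-- A flip that destroys one of two chords with the same image disappears after contraction. -/
theorem contr_eq {n v : ℕ} {X Y : Set (ℕ × ℕ)} (hX : IsKTri (n + 1) 1 X)
    (hY : IsKTri (n + 1) 1 Y) (hv : v < n) (h : Swap X Y) {p q : ℕ × ℕ} (hp : p ∈ X) (hq : q ∈ X)
    (hpq : p ≠ q) (him : (ph v p.1, ph v p.2) = (ph v q.1, ph v q.2))
    (hn : ¬ (p ∈ Y ∧ q ∈ Y)) : contr v X = contr v Y := by
  obtain ⟨e, f, -, -, -, -, h5, -⟩ := h.spec
  apply (hX.contr hv).eq_of_subset (hY.contr hv)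
  rintro x ⟨h1, y, hy, rfl⟩
  rcases h5 y hy with rfl | h'
  · rcases h5 p hp with rfl | hp'
    · have hq' : q ∈ Y := (h5 q hq).resolve_left (Ne.symm hpq)
      exact ⟨h1, q, hq', him⟩
    · rcases h5 q hq with rfl | hq'
      · exact ⟨h1, p, hp', him.symm⟩
      · exact absurd ⟨hp', hq'⟩ hn
  · exact ⟨h1, y, h', rfl⟩

theorem R.contr_kill {n v : ℕ} {X Y : Set (ℕ × ℕ)} {l : ℕ} (h : R (n + 1) 1 ∅ X Y l)
    (hv : v < n) {p q : ℕ × ℕ} (hp : p ∈ Y) (hq : q ∈ Y) (hpq : p ≠ q)
    (him : (ph v p.1, ph v p.2) = (ph v q.1, ph v q.2)) :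
    ¬ (p ∈ X ∧ q ∈ X) → ∃ l', l = l' + 1 ∧ R n 1 ∅ (H88KTri.contr v X) (H88KTri.contr v Y) l' := by
  induction h with
  | nil X l _ _ => exact fun h => absurd ⟨hp, hq⟩ h
  | cons X X' Y l h1 _ h3 h4 ih =>
    intro hn
    refine ⟨l, rfl, ?_⟩
    by_cases hX' : p ∈ X' ∧ q ∈ X'
    · rw [← contr_eq h4.left.1 h1 hv h3.symm hX'.1 hX'.2 hpq him hn]
      exact h4.contr hv
    · obtain ⟨l', rfl, h7⟩ := ih hp hq hX'
      obtain ⟨e, f, -, -, -, -, h5, h6⟩ := h3.spec
      exact R.lazy (h1.contr hv) (Set.empty_subset _)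
        (eq_or_swap (h1.contr hv) (h4.left.1.contr hv) (contr_sub h5) (contr_sub h6)) h7

end Pool.Agent.H88KTri
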