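import Pool.Agent.H88KTri.Cone

/-!
Two double fans of the (a+b+4)-gon and their flip distance a + b + 1 + min a b.
-/

namespace Pool.Agent.H88KTri

/-- First stage: from `TA` (t = 1) towards the fan at 0. -/
def F1 (a b t : ℕ) : Set (ℕ × ℕ) :=
  {e | e.1 < e.2 ∧ e.2 < a + b + 4 ∧ (e.2 = e.1 + 1 ∨ (e.1 = 0 ∧ (e.2 ≤ t ∨ e.2 = a + b + 3)) ∨
    (e.2 = a + b + 3 ∧ t ≤ e.1 ∧ e.1 ≤ a + 1) ∨ e.1 = a + 1)}

/-- Second stage. -/
def F2 (a b u : ℕ) : Set (ℕ × ℕ) :=
  {e | e.1 < e.2 ∧ e.2 < a + b + 4 ∧ (e.2 = e.1 + 1 ∨ (e.1 = 0 ∧ (e.2 ≤ a + 1 ∨ u ≤ e.2)) ∨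
    (e.1 = a + 1 ∧ e.2 ≤ u))}

/-- Third stage, ending at `TB` (w = 1). -/
def F3 (a b w : ℕ) : Set (ℕ × ℕ) :=
  {e | e.1 < e.2 ∧ e.2 < a + b + 4 ∧ (e.2 = e.1 + 1 ∨ (e.1 = 0 ∧ (e.2 ≤ w ∨ a + 2 ≤ e.2)) ∨
    (e.2 = a + 2 ∧ w ≤ e.1))}

/-- The first double fan. -/
def TA (a b : ℕ) : Set (ℕ × ℕ) := F1 a b 1

/-- The second double fan. -/
def TB (a b : ℕ) : Set (ℕ × ℕ) := F3 a b 1

theorem mem_F1 {a b t i j : ℕ} : (i, j) ∈ F1 a b t ↔ i < j ∧ j < a + b + 4 ∧ (j = i + 1 ∨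
    (i = 0 ∧ (j ≤ t ∨ j = a + b + 3)) ∨ (j = a + b + 3 ∧ t ≤ i ∧ i ≤ a + 1) ∨ i = a + 1) := Iff.rfl

theorem mem_F2 {a b u i j : ℕ} : (i, j) ∈ F2 a b u ↔ i < j ∧ j < a + b + 4 ∧ (j = i + 1 ∨
    (i = 0 ∧ (j ≤ a + 1 ∨ u ≤ j)) ∨ (i = a + 1 ∧ j ≤ u)) := Iff.rfl

theorem mem_F3 {a b w i j : ℕ} : (i, j) ∈ F3 a b w ↔ i < j ∧ j < a + b + 4 ∧ (j = i + 1 ∨
    (i = 0 ∧ (j ≤ w ∨ a + 2 ≤ j)) ∨ (j = a + 2 ∧ w ≤ i)) := Iff.rfl

theorem mem_TA {a b i j : ℕ} : (i, j) ∈ TA a b ↔ i < j ∧ j < a + b + 4 ∧ (j = i + 1 ∨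
    (j = a + b + 3 ∧ i ≤ a + 1) ∨ i = a + 1) := by
  rw [TA, mem_F1]
  omega

theorem mem_TB {a b i j : ℕ} : (i, j) ∈ TB a b ↔ i < j ∧ j < a + b + 4 ∧ (j = i + 1 ∨
    (i = 0 ∧ a + 2 ≤ j) ∨ j = a + 2) := by
  rw [TB, mem_F3]
  omega

theorem tri_F1 {a b t : ℕ} (h1 : 1 ≤ t) (h2 : t ≤ a + 1) : IsKTri (a + b + 4) 1 (F1 a b t) := by
  refine isKTri_one (fun e he => ⟨he.1, he.2.1⟩) ?_ ?_
  · intro a1 a2 b1 b2 h h'
    rw [mem_F1] at h h'
    omega
  · intro x y hxy hy hn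
    rw [mem_F1] at hn
    by_cases c1 : y ≤ t
    · exact ⟨(0, y - 1), by rw [mem_F1]; omega, by unfold Cross; simp only; omega⟩
    by_cases c2 : x < t
    · by_cases c3 : y = a + b + 3
      · exact ⟨(0, t), by rw [mem_F1]; omega, by unfold Cross; simp only; omega⟩
      · exact ⟨(t, a + b + 3), by rw [mem_F1]; omega, by unfold Cross; simp only; omega⟩
    by_cases c3 : x ≤ a
    · exact ⟨(x + 1, a + b + 3), by rw [mem_F1]; omega, by unfold Cross; simp only; omega⟩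
    · exact ⟨(a + 1, y - 1), by rw [mem_F1]; omega, by unfold Cross; simp only; omega⟩

theorem tri_F2 {a b u : ℕ} (h1 : a + 2 ≤ u) (h2 : u ≤ a + b + 3) :
    IsKTri (a + b + 4) 1 (F2 a b u) := by
  refine isKTri_one (fun e he => ⟨he.1, he.2.1⟩) ?_ ?_
  · intro a1 a2 b1 b2 h h'
    rw [mem_F2] at h h'
    omega
  · intro x y hxy hy hn
    rw [mem_F2] at hn
    by_cases c0 : x = 0
    · exact ⟨(a + 1, u), by rw [mem_F2]; omega, by unfold Cross; simp only; omega⟩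
    by_cases c1 : x ≤ a
    · exact ⟨(0, x + 1), by rw [mem_F2]; omega, by unfold Cross; simp only; omega⟩
    by_cases c2 : u < y
    · exact ⟨(0, y - 1), by rw [mem_F2]; omega, by unfold Cross; simp only; omega⟩
    · exact ⟨(a + 1, y - 1), by rw [mem_F2]; omega, by unfold Cross; simp only; omega⟩

theorem tri_F3 {a b w : ℕ} (h1 : 1 ≤ w) (h2 : w ≤ a + 1) : IsKTri (a + b + 4) 1 (F3 a b w) := by
  refine isKTri_one (fun e he => ⟨he.1, he.2.1⟩) ?_ ?_
  · intro a1 a2 b1 b2 h h'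
    rw [mem_F3] at h h'
    omega
  · intro x y hxy hy hn
    rw [mem_F3] at hn
    by_cases c0 : x = 0
    · exact ⟨(w, a + 2), by rw [mem_F3]; omega, by unfold Cross; simp only; omega⟩
    by_cases c1 : x < w
    · exact ⟨(0, x + 1), by rw [mem_F3]; omega, by unfold Cross; simp only; omega⟩
    by_cases c2 : a + 2 < y
    · exact ⟨(0, y - 1), by rw [mem_F3]; omega, by unfold Cross; simp only; omega⟩
    · exact ⟨(x + 1, a + 2), by rw [mem_F3]; omega, by unfold Cross; simp only; omega⟩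

theorem tri_TA (a b : ℕ) : IsKTri (a + b + 4) 1 (TA a b) := tri_F1 le_rfl (by omega)

theorem tri_TB (a b : ℕ) : IsKTri (a + b + 4) 1 (TB a b) := tri_F3 le_rfl (by omega)

theorem path_face (a b : ℕ) :
    R (a + b + 4) 1 (TA a b ∩ TB a b) (TA a b) (TB a b) (a + b + 1 + a) := by
  have p1 := R.chain (n := a + b + 4) (k := 1) (C := TA a b ∩ TB a b) (fun t => F1 a b (t + 1)) a
    (fun t ht => ⟨tri_F1 (by omega) (by omega), by
      rintro ⟨i, j⟩ ⟨h, h'⟩
      rw [mem_TA] at h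
      rw [mem_TB] at h'
      rw [mem_F1]
      omega⟩)
    (fun t ht => swap_of (e := (t + 1, a + b + 3)) (f := (0, t + 2))
      (by rw [mem_F1]; omega) (by rw [mem_F1]; omega) (by rw [mem_F1]; omega)
      (by rw [mem_F1]; omega)
      (by rintro ⟨i, j⟩; simp only [mem_F1, Prod.mk.injEq]; omega)
      (by rintro ⟨i, j⟩; simp only [mem_F1, Prod.mk.injEq]; omega))
  have p2 := R.chain (n := a + b + 4) (k := 1) (C := TA a b ∩ TB a b)
    (fun t => F2 a b (a + b + 3 - t)) (b + 1)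
    (fun t ht => ⟨tri_F2 (by omega) (by omega), by
      rintro ⟨i, j⟩ ⟨h, h'⟩
      rw [mem_TA] at h
      rw [mem_TB] at h'
      rw [mem_F2]
      omega⟩)
    (fun t ht => swap_of (e := (a + 1, a + b + 3 - t)) (f := (0, a + b + 2 - t))
      (by rw [mem_F2]; omega) (by rw [mem_F2]; omega) (by rw [mem_F2]; omega)
      (by rw [mem_F2]; omega)
      (by rintro ⟨i, j⟩; simp only [mem_F2, Prod.mk.injEq]; omega)
      (by rintro ⟨i, j⟩; simp only [mem_F2, Prod.mk.injEq]; omega))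
  have p3 := R.chain (n := a + b + 4) (k := 1) (C := TA a b ∩ TB a b)
    (fun t => F3 a b (a + 1 - t)) a
    (fun t ht => ⟨tri_F3 (by omega) (by omega), by
      rintro ⟨i, j⟩ ⟨h, h'⟩
      rw [mem_TA] at h
      rw [mem_TB] at h'
      rw [mem_F3]
      omega⟩)
    (fun t ht => swap_of (e := (0, a + 1 - t)) (f := (a - t, a + 2))
      (by rw [mem_F3]; omega) (by rw [mem_F3]; omega) (by rw [mem_F3]; omega)
      (by rw [mem_F3]; omega)
      (by rintro ⟨i, j⟩; simp only [mem_F3, Prod.mk.injEq]; omega)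
      (by rintro ⟨i, j⟩; simp only [mem_F3, Prod.mk.injEq]; omega))
  have e1 : F1 a b (a + 1) = F2 a b (a + b + 3 - 0) := by
    ext ⟨i, j⟩
    rw [mem_F1, mem_F2]
    omega
  have e2 : F2 a b (a + b + 3 - (b + 1)) = F3 a b (a + 1 - 0) := by
    ext ⟨i, j⟩
    rw [mem_F2, mem_F3]
    omega
  have e3 : F3 a b (a + 1 - a) = TB a b := by
    rw [TB, show a + 1 - a = 1 by omega]
  rw [e1] at p1
  rw [e2] at p2
  rw [e3] at p3
  have := (p1.trans p2).trans p3
  rwa [show a + (b + 1) + a = a + b + 1 + a by omega] at this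

/-- The chords of `TA` missing from `TB`. -/
def SA (a b : ℕ) : Finset (ℕ × ℕ) :=
  (Finset.range (a + b + 1)).image fun t => if t ≤ a then (t + 1, a + b + 3) else (a + 1, t + 2)

theorem card_SA (a b : ℕ) : (SA a b).card = a + b + 1 := by
  rw [SA, Finset.card_image_of_injOn, Finset.card_range]
  intro s hs t ht h
  simp only [Finset.coe_range, Set.mem_Iio] at hs ht
  simp only at h
  split_ifs at h <;> simp only [Prod.mk.injEq] at h <;> omega

theorem mem_SA (a b : ℕ) : ∀ x ∈ SA a b, x ∈ TA a b ∧ x ∉ TB a b := by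
  intro x hx
  simp only [SA, Finset.mem_image, Finset.mem_range] at hx
  obtain ⟨t, ht, rfl⟩ := hx
  split_ifs <;> rw [mem_TA, mem_TB] <;> omega

theorem contr_top {a b v : ℕ} (hv : v ≤ a + 1) :
    contr v (TA (a + 1) b) = TA a b ∧ contr v (TB (a + 1) b) = TB a b := by
  have hA := tri_TA (a + 1) b
  have hB := tri_TB (a + 1) b
  rw [show a + 1 + b + 4 = a + b + 4 + 1 by omega] at hA hB
  constructor
  · apply (hA.contr (by omega)).eq_of_subset (tri_TA a b)
    rintro _ ⟨h1, ⟨i, j⟩, h2, rfl⟩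
    rw [mem_TA] at h2 ⊢
    simp only [ph] at h1 ⊢
    split_ifs at h1 ⊢ <;> omega
  · apply (hB.contr (by omega)).eq_of_subset (tri_TB a b)
    rintro _ ⟨h1, ⟨i, j⟩, h2, rfl⟩
    rw [mem_TB] at h2 ⊢
    simp only [ph] at h1 ⊢
    split_ifs at h1 ⊢ <;> omega

theorem contr_bot {a b v : ℕ} (hv : a + 2 ≤ v) (hv' : v ≤ a + b + 3) :
    contr v (TA a (b + 1)) = TA a b ∧ contr v (TB a (b + 1)) = TB a b := by
  have hA := tri_TA a (b + 1)
  have hB := tri_TB a (b + 1)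
  rw [show a + (b + 1) + 4 = a + b + 4 + 1 by omega] at hA hB
  constructor
  · apply (hA.contr (by omega)).eq_of_subset (tri_TA a b)
    rintro _ ⟨h1, ⟨i, j⟩, h2, rfl⟩
    rw [mem_TA] at h2 ⊢
    simp only [ph] at h1 ⊢
    split_ifs at h1 ⊢ <;> omega
  · apply (hB.contr (by omega)).eq_of_subset (tri_TB a b)
    rintro _ ⟨h1, ⟨i, j⟩, h2, rfl⟩
    rw [mem_TB] at h2 ⊢
    simp only [ph] at h1 ⊢
    split_ifs at h1 ⊢ <;> omega

theorem R.inv {n k : ℕ} {C X Y : Set (ℕ × ℕ)} {l : ℕ} (h : R n k C X Y l) (hne : X ≠ Y) :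
    ∃ X' l', l = l' + 1 ∧ Swap X X' ∧ R n k C X' Y l' := by
  cases h with
  | nil _ _ _ _ => exact absurd rfl hne
  | cons _ X' _ l' _ _ h3 h4 => exact ⟨X', l', rfl, h3, h4⟩

theorem lower_aux (s : ℕ) : ∀ a b l : ℕ, a + b = s → R (a + b + 4) 1 ∅ (TA a b) (TB a b) l →
    a + b + 1 + min a b ≤ l := by
  induction s with
  | zero =>
    intro a b l hs h
    have := h.card_le (SA a b) (mem_SA a b)
    rw [card_SA] at this
    omega
  | succ s ih =>
    intro a b l hs h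
    have h0 := h.card_le (SA a b) (mem_SA a b)
    rw [card_SA] at h0
    rcases a with _ | a
    · omega
    rcases b with _ | b
    · omega
    have hne : TA (a + 1) (b + 1) ≠ TB (a + 1) (b + 1) := by
      intro hh
      have : (1, a + b + 5) ∈ TA (a + 1) (b + 1) := by rw [mem_TA]; omega
      rw [hh, mem_TB] at this
      omega
    obtain ⟨U, l1, rfl, hsw, hU⟩ := h.inv hne
    obtain ⟨⟨i, j⟩, f, he, -, -, heU, h5, -⟩ := hsw.spec
    have hUt := hU.left.1
    have hnc := crossFree_one.1 hUt.2.1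
    have hij : j ≠ i + 1 ∧ ¬ (i = 0 ∧ j = a + b + 5) := by
      rw [mem_TA] at he
      obtain ⟨⟨p, q⟩, hf, hc⟩ := hUt.exists_cross he.1 he.2.1 heU
      have := hUt.1 _ hf
      unfold Cross at hc
      simp only at hc this
      omega
    have hA := tri_TA (a + 1) (b + 1)
    rw [show a + 1 + (b + 1) + 4 = a + b + 5 + 1 by omega] at hA hU hUt
    rw [mem_TA] at he
    by_cases hj : j = a + b + 5
    · have hv : i - 1 < a + b + 5 := by omega
      have k1 := contr_eq hA hUt hv hsw (p := (i - 1, j)) (q := (i, j)) (by rw [mem_TA]; omega)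
        (by rw [mem_TA]; omega) (by simp only [ne_eq, Prod.mk.injEq]; omega)
        (Prod.ext (by simp only [ph]; split_ifs <;> omega) rfl) (fun h => heU h.2)
      have hin : (a + 2, a + 4) ∈ U := (h5 _ (by rw [mem_TA]; omega)).resolve_left
        (by simp only [Prod.mk.injEq]; omega)
      obtain ⟨l2, rfl, k2⟩ := hU.contr_kill hv (p := (i - 1, a + 3)) (q := (i, a + 3))
        (by rw [mem_TB]; omega) (by rw [mem_TB]; omega)
        (by simp only [ne_eq, Prod.mk.injEq]; omega)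
        (Prod.ext (by simp only [ph]; split_ifs <;> omega) rfl)
        (fun h => hnc _ h.1 _ hin (by unfold Cross; simp only; omega))
      have c := contr_top (a := a) (b := b + 1) (v := i - 1) (by omega)
      rw [← k1, c.1, c.2, show a + b + 5 = a + (b + 1) + 4 by omega] at k2
      have := ih a (b + 1) l2 (by omega) k2
      omega
    · have hv : j - 1 < a + b + 5 := by omega
      have k1 := contr_eq hA hUt hv hsw (p := (i, j - 1)) (q := (i, j)) (by rw [mem_TA]; omega)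
        (by rw [mem_TA]; omega) (by simp only [ne_eq, Prod.mk.injEq]; omega)
        (Prod.ext rfl (by simp only [ph]; split_ifs <;> omega)) (fun h => heU h.2)
      have hin : (1, a + b + 5) ∈ U := (h5 _ (by rw [mem_TA]; omega)).resolve_left
        (by simp only [Prod.mk.injEq]; omega)
      obtain ⟨l2, rfl, k2⟩ := hU.contr_kill hv (p := (0, j - 1)) (q := (0, j))
        (by rw [mem_TB]; omega) (by rw [mem_TB]; omega)
        (by simp only [ne_eq, Prod.mk.injEq]; omega)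
        (Prod.ext rfl (by simp only [ph]; split_ifs <;> omega))
        (fun h => hnc _ h.1 _ hin (by unfold Cross; simp only; omega))
      have c := contr_bot (a := a + 1) (b := b) (v := j - 1) (by omega) (by omega)
      rw [← k1, c.1, c.2, show a + b + 5 = a + 1 + b + 4 by omega] at k2
      have := ih (a + 1) b l2 (by omega) k2
      omega

theorem lower (a b l : ℕ) (h : R (a + b + 4) 1 ∅ (TA a b) (TB a b) l) :
    a + b + 1 + min a b ≤ l := lower_aux _ a b l rfl h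

end Pool.Agent.H88KTri
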