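import Pool.Agent.H88KTri.Short

/-!
The non-leaving-face property for triangulations (k = 1).
-/

namespace Pool.Agent.H88KTri

theorem IsKTri.mem_of {n : ℕ} {X : Set (ℕ × ℕ)} (hX : IsKTri n 1 X) {x y : ℕ} (hxy : x < y)
    (hy : y < n) (h : ∀ p q : ℕ, (p, q) ∈ X → p < q → q < n → ¬ Cross (x, y) (p, q)) :
    (x, y) ∈ X := by
  by_contra hn
  obtain ⟨⟨p, q⟩, hf, hc⟩ := hX.exists_cross hxy hy hn
  exact h p q hf (hX.1 _ hf).1 (hX.1 _ hf).2 hc

theorem IsKTri.split {n : ℕ} {X : Set (ℕ × ℕ)} (hX : IsKTri n 1 X) {i j : ℕ} (h : (i, j) ∈ X)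
    (hij : i + 2 ≤ j) : ∃ c, i < c ∧ c < j ∧ (i, c) ∈ X ∧ (c, j) ∈ X := by
  classical
  have hj : j < n := (hX.1 _ h).2
  have hnc := crossFree_one.1 hX.2.1
  have h0 : (i, i + 1) ∈ X := hX.mem_of (by omega) (by omega) fun p q _ _ _ hc => by
    unfold Cross at hc
    simp only at hc
    omega
  obtain ⟨c, hc, hmax⟩ := ((Finset.Ioo i j).filter fun c => (i, c) ∈ X).exists_max_image id
    ⟨i + 1, by simp only [Finset.mem_filter, Finset.mem_Ioo]; exact ⟨by omega, h0⟩⟩
  simp only [Finset.mem_filter, Finset.mem_Ioo, id] at hc hmax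
  refine ⟨c, hc.1.1, hc.1.2, hc.2, hX.mem_of hc.1.2 hj fun p q hpq _ _ hcr => ?_⟩
  have h1 := hnc _ hpq _ h
  have h2 := hnc _ hpq _ hc.2
  by_cases hp : p = i
  · subst hp
    have h3 := hmax q
    unfold Cross at hcr
    simp only at hcr
    have : q ≤ c := h3 ⟨by omega, hpq⟩
    omega
  · unfold Cross at hcr h1 h2
    simp only at hcr h1 h2
    omega

/-- Nondegenerate image of a set of chords under a map of the vertices. -/
def img (r : ℕ → ℕ) (X : Set (ℕ × ℕ)) : Set (ℕ × ℕ) :=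
  {e | e.1 < e.2 ∧ ∃ g ∈ X, e = (r g.1, r g.2)}

theorem img_max {n : ℕ} {X : Set (ℕ × ℕ)} (hX : IsKTri n 1 X) {r : ℕ → ℕ} (hr : Monotone r)
    {x y : ℕ} (hx : r x = x) (hy : r y = y) (hxy : x < y) (hyn : y < n)
    (hn : (x, y) ∉ img r X) : ∃ f ∈ img r X, Cross (x, y) f := by
  have key : ∀ d i j : ℕ, j - i ≤ d → (i, j) ∈ X → r i ≤ x → y ≤ r j →
      ∃ f ∈ img r X, Cross (x, y) f := by
    intro d
    induction d with
    | zero =>
      intro i j hd hij _ _
      have := (hX.1 _ hij).1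
      simp only at this
      omega
    | succ d ih =>
      intro i j hd hij h1 h2
      have hlt : i < j := (hX.1 _ hij).1
      have hne : ¬ (r i = x ∧ r j = y) := fun h => hn ⟨hxy, (i, j), hij, by rw [← h.1, ← h.2]⟩
      by_cases hj : j = i + 1
      · exfalso
        apply hne
        constructor
        · by_cases hxi : x ≤ i
          · have := hr hxi
            omega
          · have := hr (show j ≤ x by omega)
            omega
        · by_cases hyi : y ≤ i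
          · have := hr hyi
            omega
          · have := hr (show j ≤ y by omega)
            omega
      obtain ⟨c, hc1, hc2, hc3, hc4⟩ := hX.split hij (by omega)
      by_cases a1 : r c ≤ x
      · exact ih c j (by omega) hc4 a1 h2
      by_cases a2 : y ≤ r c
      · exact ih i c (by omega) hc3 h1 a2
      by_cases a3 : r i < x
      · exact ⟨(r i, r c), ⟨by simp only; omega, (i, c), hc3, rfl⟩, by
          unfold Cross; simp only; omega⟩
      · exact ⟨(r c, r j), ⟨by simp only; omega, (c, j), hc4, rfl⟩, by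
          unfold Cross; simp only; omega⟩
  have h0 : (0, n - 1) ∈ X := hX.mem_of (by omega) (by omega) fun p q _ _ _ hc => by
    unfold Cross at hc
    simp only at hc
    omega
  refine key _ 0 (n - 1) le_rfl h0 ?_ ?_
  · have := hr (Nat.zero_le x)
    omega
  · have := hr (show y ≤ n - 1 by omega)
    omega

/-- Clamp to the interval from `u` to `v`. -/
def r1 (u v x : ℕ) : ℕ := max u (min v x)

/-- Collapse the vertices from `u` to `v - 1` onto `u`. -/
def r2 (u v x : ℕ) : ℕ := if u ≤ x ∧ x < v then u else x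

theorem r1_mono (u v : ℕ) : Monotone (r1 u v) := by
  intro a b h
  simp only [r1]
  omega

theorem r2_mono (u v : ℕ) : Monotone (r2 u v) := by
  intro a b h
  simp only [r2]
  split_ifs <;> omega

/-- Projection onto the face of the chord `(u, v)`. -/
def proj (u v : ℕ) (X : Set (ℕ × ℕ)) : Set (ℕ × ℕ) := img (r1 u v) X ∪ img (r2 u v) X

theorem cross_of_img {r : ℕ → ℕ} (hr : Monotone r) {a b c d : ℕ} (h1 : r a < r c)
    (h2 : r c < r b) (h3 : r b < r d) : Cross (a, b) (c, d) :=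
  Or.inl ⟨hr.reflect_lt h1, hr.reflect_lt h2, hr.reflect_lt h3⟩

theorem IsKTri.proj {n u v : ℕ} {X : Set (ℕ × ℕ)} (hX : IsKTri n 1 X) (huv : u < v)
    (hv : v < n) : IsKTri n 1 (proj u v X) ∧ (u, v) ∈ proj u v X := by
  have hnc := crossFree_one.1 hX.2.1
  have h0 : (0, n - 1) ∈ X := hX.mem_of (by omega) (by omega) fun p q _ _ _ hc => by
    unfold Cross at hc
    simp only at hc
    omega
  have huv' : (u, v) ∈ H88KTri.proj u v X := Or.inl ⟨huv, (0, n - 1), h0, by
    ext <;> simp only [r1] <;> omega⟩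
  refine ⟨isKTri_one ?_ ?_ ?_, huv'⟩
  · rintro e (⟨h1, g, hg, rfl⟩ | ⟨h1, g, hg, rfl⟩)
    · refine ⟨h1, ?_⟩
      simp only [r1]
      omega
    · have := hX.1 g hg
      refine ⟨h1, ?_⟩
      simp only [r2]
      split_ifs <;> omega
  · rintro a1 a2 b1 b2 (⟨-, ⟨p, q⟩, hg, h1⟩ | ⟨-, ⟨p, q⟩, hg, h1⟩)
      (⟨-, ⟨p', q'⟩, hg', h2⟩ | ⟨-, ⟨p', q'⟩, hg', h2⟩) h3 h4 h5 <;>
      simp only [Prod.mk.injEq] at h1 h2 <;>
      obtain ⟨rfl, rfl⟩ := h1 <;> obtain ⟨rfl, rfl⟩ := h2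
    · exact hnc _ hg _ hg' (cross_of_img (r1_mono u v) h3 h4 h5)
    · simp only [r1, r2] at h3 h4 h5
      split_ifs at h3 h4 h5 <;> omega
    · simp only [r1, r2] at h3 h4 h5
      split_ifs at h3 h4 h5 <;> omega
    · exact hnc _ hg _ hg' (cross_of_img (r2_mono u v) h3 h4 h5)
  · intro x y hxy hy hn
    by_cases c1 : u ≤ x ∧ y ≤ v
    · obtain ⟨f, hf, hc⟩ := img_max hX (r1_mono u v) (x := x) (y := y)
        (by simp only [r1]; omega) (by simp only [r1]; omega) hxy hy (fun h => hn (Or.inl h))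
      exact ⟨f, Or.inl hf, hc⟩
    by_cases c2 : (x ≤ u ∨ v ≤ x) ∧ (y ≤ u ∨ v ≤ y)
    · obtain ⟨f, hf, hc⟩ := img_max hX (r2_mono u v) (x := x) (y := y)
        (by simp only [r2]; split_ifs <;> omega) (by simp only [r2]; split_ifs <;> omega) hxy hy
        (fun h => hn (Or.inr h))
      exact ⟨f, Or.inr hf, hc⟩
    · exact ⟨(u, v), huv', by unfold Cross; simp only; omega⟩

theorem mem_proj_of {u v : ℕ} {X : Set (ℕ × ℕ)} {e : ℕ × ℕ} (huv : u < v) (he : e ∈ X)
    (h1 : e.1 < e.2) (h : ¬ Cross e (u, v)) : e ∈ proj u v X := by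
  obtain ⟨x, y⟩ := e
  unfold Cross at h
  simp only at h h1
  by_cases c1 : u ≤ x ∧ y ≤ v
  · exact Or.inl ⟨h1, (x, y), he, by ext <;> simp only [r1] <;> omega⟩
  · exact Or.inr ⟨h1, (x, y), he, by ext <;> simp only [r2] <;> split_ifs <;> omega⟩

theorem proj_eq {n u v : ℕ} {X Y : Set (ℕ × ℕ)} (hX : IsKTri n 1 X) (hY : IsKTri n 1 Y)
    (huv : u < v) (hv : v < n) (h : (u, v) ∈ X) (h1 : ∀ x ∈ X, x = (u, v) ∨ x ∈ Y) :
    proj u v Y = X := by
  symm
  apply hX.eq_of_subset (hY.proj huv hv).1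
  intro x hx
  rcases h1 x hx with rfl | h2
  · exact (hY.proj huv hv).2
  · exact mem_proj_of huv h2 (hX.1 x hx).1 (crossFree_one.1 hX.2.1 _ hx _ h)

theorem img_side {r : ℕ → ℕ} {X Y : Set (ℕ × ℕ)} {e s : ℕ × ℕ} (h1 : ∀ x ∈ X, x = e ∨ x ∈ Y)
    (hs : s ∈ Y) (h : (r e.1, r e.2) = (r s.1, r s.2)) : img r X ⊆ img r Y := by
  rintro x ⟨hx, g, hg, rfl⟩
  rcases h1 g hg with rfl | h2
  · exact ⟨hx, s, hs, h⟩
  · exact ⟨hx, g, h2, rfl⟩

theorem img_sub {r : ℕ → ℕ} {X Y : Set (ℕ × ℕ)} {e : ℕ × ℕ} (h1 : ∀ x ∈ X, x = e ∨ x ∈ Y) :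
    ∀ x ∈ img r X, x = (r e.1, r e.2) ∨ x ∈ img r Y := by
  rintro x ⟨hx, g, hg, rfl⟩
  rcases h1 g hg with rfl | h2
  · exact Or.inl rfl
  · exact Or.inr ⟨hx, g, h2, rfl⟩

theorem proj_half {n u v : ℕ} {X Y : Set (ℕ × ℕ)} (hX : IsKTri n 1 X) (hY : IsKTri n 1 Y)
    (huv : u < v) (h : Swap X Y) : ∃ e : ℕ × ℕ, ∀ x ∈ proj u v X, x = e ∨ x ∈ proj u v Y := by
  obtain ⟨⟨a, b⟩, ⟨c, d⟩, he, hf, hfY, -, h1, h2⟩ := h.spec
  have hcX := crossFree_one.1 hX.2.1
  have hcY := crossFree_one.1 hY.2.1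
  have hcr : Cross (a, b) (c, d) := by
    obtain ⟨g, hg, hc⟩ := hX.exists_cross (hY.1 _ hfY).1 (hY.1 _ hfY).2 hf
    rcases h1 g hg with rfl | h
    · exact hc.symm
    · exact absurd hc (hcY _ hfY _ h)
  have hb : b < n := (hX.1 _ he).2
  have hd : d < n := (hY.1 _ hfY).2
  have side : ∀ x y : ℕ, x < y → y < n →
      (∀ p q : ℕ, ¬ Cross (c, d) (p, q) → (p = c ∧ q = d ∨ ¬ Cross (a, b) (p, q)) →
        ¬ Cross (x, y) (p, q)) → (x, y) ∈ Y := by
    intro x y hxy hy hh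
    refine hY.mem_of hxy hy fun p q hpq _ _ => hh p q (hcY _ hfY _ hpq) ?_
    rcases h2 _ hpq with h' | h'
    · left
      simpa using h'
    · exact Or.inr (hcX _ he _ h')
  have key : img (r1 u v) X ⊆ img (r1 u v) Y ∨ img (r2 u v) X ⊆ img (r2 u v) Y := by
    rcases hcr with hcr | hcr <;> simp only at hcr
    · have s1 : (c, b) ∈ Y := side c b (by omega) hb (by
        intro p q; unfold Cross; dsimp only; omega)
      have s2 : (a, c) ∈ Y := side a c (by omega) (by omega) (by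
        intro p q; unfold Cross; dsimp only; omega)
      have s3 : (a, d) ∈ Y := side a d (by omega) hd (by
        intro p q; unfold Cross; dsimp only; omega)
      by_cases c1 : c ≤ u
      · exact Or.inl (img_side h1 s1 (Prod.ext (by simp only [r1]; omega) rfl))
      by_cases c2 : v ≤ b
      · exact Or.inl (img_side h1 s3 (Prod.ext rfl (by simp only [r1]; omega)))
      · exact Or.inr (img_side h1 s2 (Prod.ext rfl (by simp only [r2]; split_ifs <;> omega)))
    · have s1 : (c, b) ∈ Y := side c b (by omega) hb (by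
        intro p q; unfold Cross; dsimp only; omega)
      have s2 : (a, d) ∈ Y := side a d (by omega) hd (by
        intro p q; unfold Cross; dsimp only; omega)
      have s3 : (d, b) ∈ Y := side d b (by omega) hb (by
        intro p q; unfold Cross; dsimp only; omega)
      by_cases c1 : a ≤ u
      · exact Or.inl (img_side h1 s1 (Prod.ext (by simp only [r1]; omega) rfl))
      by_cases c2 : v ≤ d
      · exact Or.inl (img_side h1 s2 (Prod.ext rfl (by simp only [r1]; omega)))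
      · exact Or.inr (img_side h1 s3 (Prod.ext (by simp only [r2]; split_ifs <;> omega) rfl))
  rcases key with k | k
  · refine ⟨(r2 u v a, r2 u v b), ?_⟩
    rintro x (hx | hx)
    · exact Or.inr (Or.inl (k hx))
    · exact (img_sub h1 x hx).imp id Or.inr
  · refine ⟨(r1 u v a, r1 u v b), ?_⟩
    rintro x (hx | hx)
    · exact (img_sub h1 x hx).imp id Or.inl
    · exact Or.inr (Or.inr (k hx))

theorem proj_step {n u v : ℕ} {X Y : Set (ℕ × ℕ)} (hX : IsKTri n 1 X) (hY : IsKTri n 1 Y)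
    (huv : u < v) (hv : v < n) (h : Swap X Y) :
    proj u v X = proj u v Y ∨ Swap (proj u v X) (proj u v Y) := by
  obtain ⟨e, he⟩ := proj_half hX hY huv h
  obtain ⟨f, hf⟩ := proj_half hY hX huv h.symm
  exact eq_or_swap (hX.proj huv hv).1 (hY.proj huv hv).1 he hf

theorem R.proj {n u v : ℕ} {X Y : Set (ℕ × ℕ)} {l : ℕ} (h : R n 1 ∅ X Y l) (huv : u < v)
    (hv : v < n) : R n 1 ∅ (proj u v X) (proj u v Y) l := by
  induction h with
  | nil X l h1 _ => exact R.nil _ _ (h1.proj huv hv).1 (Set.empty_subset _)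
  | cons X X' Y l h1 _ h3 h4 ih =>
    exact R.lazy (h1.proj huv hv).1 (Set.empty_subset _) (proj_step h1 h4.left.1 huv hv h3) ih

theorem shorter_one {n u v : ℕ} {X Y : {T : Set (ℕ × ℕ) // IsKTri n 1 T}}
    (w : (flipGraph n 1).Walk X Y) (huv : u < v) (hv : v < n) :
    (u, v) ∈ X.1 → (∃ Z ∈ w.support, (u, v) ∉ Z.1) →
      ∃ l, w.length = l + 1 ∧ R n 1 ∅ X.1 (proj u v Y.1) l := by
  induction w with
  | nil =>
    rintro hX ⟨Z, hZ, h⟩
    simp only [SimpleGraph.Walk.support_nil, List.mem_singleton] at hZ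
    exact absurd hX (hZ ▸ h)
  | @cons X X' Y h p ih =>
    rintro hX ⟨Z, hZ, hv'⟩
    refine ⟨p.length, rfl, ?_⟩
    by_cases hX' : (u, v) ∈ X'.1
    · simp only [SimpleGraph.Walk.support_cons, List.mem_cons] at hZ
      have hZ' : Z ∈ p.support := by
        rcases hZ with rfl | hZ
        · exact absurd hX hv'
        · exact hZ
      obtain ⟨l, hl, hR⟩ := ih hX' ⟨Z, hZ', hv'⟩
      rw [hl]
      exact R.cons _ _ _ _ X.2 (Set.empty_subset _) h hR
    · obtain ⟨e, f, -, -, -, -, h5, -⟩ := Swap.spec h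
      have he : (u, v) = e := (h5 _ hX).resolve_right hX'
      subst he
      have := (R.of_walk (C := ∅) p (by simp)).proj huv hv
      rwa [proj_eq X.2 X'.2 huv hv hX h5] at this

theorem nlf_one {n : ℕ} {T U : {T : Set (ℕ × ℕ) // IsKTri n 1 T}}
    (w : (flipGraph n 1).Walk T U) (hw : w.length = (flipGraph n 1).dist T U) :
    ∀ X ∈ w.support, T.1 ∩ U.1 ⊆ X.1 := by
  rintro X hX ⟨u, v⟩ ⟨h1, h2⟩
  by_contra hn
  have huv : u < v := (T.2.1 _ h1).1
  have hv : v < n := (T.2.1 _ h1).2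
  obtain ⟨l, hl, hR⟩ := shorter_one w huv hv h1 ⟨X, hX, hn⟩
  rw [proj_eq U.2 U.2 huv hv h2 fun x hx => Or.inr hx] at hR
  obtain ⟨p, hp, -⟩ := hR.to_walk T.2 U.2
  have := SimpleGraph.dist_le p
  have h3 : (flipGraph n 1).dist T U ≤ p.length := this
  omega

end Pool.Agent.H88KTri
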