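import Pool.Agent.H88KTri.Fans

/-!
A short path in the 2-triangulations of the (a+b+6)-gon, and the passage to all k.
-/

namespace Pool.Agent.H88KTri

/-- The intermediate 2-triangulations of the short path. -/
def Z (a b t u : ℕ) : Set (ℕ × ℕ) :=
  {e | e.1 < e.2 ∧ e.2 < a + b + 6 ∧ (e.2 ≤ e.1 + 2 ∨ (e.1 = 0 ∧ e.2 ≠ a + 3) ∨
    (e.2 = a + b + 5 ∧ e.1 ≤ t) ∨ (e.1 = a + 2 ∧ e.2 ≤ u) ∨ (e.2 = a + 4 ∧ t ≤ e.1) ∨
    (e.1 = 1 ∧ u ≤ e.2))}

theorem mem_Z {a b t u i j : ℕ} : (i, j) ∈ Z a b t u ↔ i < j ∧ j < a + b + 6 ∧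
    (j ≤ i + 2 ∨ (i = 0 ∧ j ≠ a + 3) ∨ (j = a + b + 5 ∧ i ≤ t) ∨ (i = a + 2 ∧ j ≤ u) ∨
      (j = a + 4 ∧ t ≤ i) ∨ (i = 1 ∧ u ≤ j)) := Iff.rfl

theorem tri_Z {a b t u : ℕ} (h1 : 1 ≤ t) (h2 : t ≤ a + 1) (h3 : a + 5 ≤ u) (h4 : u ≤ a + b + 5)
    (h5 : t = 1 ∨ u = a + b + 5) : IsKTri (a + b + 4 + 2) (1 + 1) (Z a b t u) := by
  refine isKTri_two (fun e he => ⟨he.1, he.2.1⟩) ?_ ?_
  · intro a1 a2 a3 b1 b2 b3 h h' h''
    rw [mem_Z] at h h' h''
    omega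
  · intro x y hxy hy hn
    rw [mem_Z] at hn
    have key : ∀ p q c d : ℕ, ((p, q) ∈ Z a b t u ∧ (c, d) ∈ Z a b t u ∧ Cross (x, y) (p, q) ∧
        Cross (x, y) (c, d) ∧ Cross (p, q) (c, d)) →
        ∃ f ∈ Z a b t u, ∃ g ∈ Z a b t u, Cross (x, y) f ∧ Cross (x, y) g ∧ Cross f g :=
      fun p q c d h => ⟨_, h.1, _, h.2.1, h.2.2⟩
    by_cases c0 : x = 0
    · exact key (a + 1) (a + 4) (a + 2) (a + 5)
        (by rw [mem_Z, mem_Z]; unfold Cross; dsimp only; omega)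
    by_cases c1 : y ≤ a + 3
    · by_cases c2 : x + 1 ≤ t
      · exact key (x + 1) (a + b + 5) 0 (x + 2)
          (by rw [mem_Z, mem_Z]; unfold Cross; dsimp only; omega)
      · exact key (x + 1) (a + 4) 0 (x + 2) (by rw [mem_Z, mem_Z]; unfold Cross; dsimp only; omega)
    by_cases c2 : a + 3 ≤ x
    · by_cases c3 : y - 1 ≤ u
      · exact key (a + 2) (y - 1) 0 (y - 2) (by rw [mem_Z, mem_Z]; unfold Cross; dsimp only; omega)
      · exact key 1 (y - 1) 0 (y - 2) (by rw [mem_Z, mem_Z]; unfold Cross; dsimp only; omega)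
    by_cases c3 : x = a + 2
    · exact key 1 u 0 (a + 4) (by rw [mem_Z, mem_Z]; unfold Cross; dsimp only; omega)
    by_cases c4 : y = a + 4
    · exact key t (a + b + 5) 0 (a + 2) (by rw [mem_Z, mem_Z]; unfold Cross; dsimp only; omega)
    by_cases c5 : t < x
    · exact key t (a + 4) 0 (a + 2) (by rw [mem_Z, mem_Z]; unfold Cross; dsimp only; omega)
    · exact key (a + 2) u 0 (a + 4) (by rw [mem_Z, mem_Z]; unfold Cross; dsimp only; omega)

theorem path_short (a b : ℕ) :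
    R (a + b + 4 + 2) (1 + 1) ∅ (cone (a + b + 4) (TA a b)) (cone (a + b + 4) (TB a b))
      (a + b + 2) := by
  have p1 := R.chain (n := a + b + 4 + 2) (k := 1 + 1) (C := ∅)
    (fun t => Z a b (a + 1 - t) (a + b + 5)) a
    (fun t ht => ⟨tri_Z (by omega) (by omega) (by omega) (by omega) (by omega),
      Set.empty_subset _⟩)
    (fun t ht => swap_of (e := (a + 1 - t, a + b + 5)) (f := (a - t, a + 4))
      (by rw [mem_Z]; omega) (by rw [mem_Z]; omega) (by rw [mem_Z]; omega)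
      (by rw [mem_Z]; omega)
      (by rintro ⟨i, j⟩; simp only [mem_Z, Prod.mk.injEq]; omega)
      (by rintro ⟨i, j⟩; simp only [mem_Z, Prod.mk.injEq]; omega))
  have p2 := R.chain (n := a + b + 4 + 2) (k := 1 + 1) (C := ∅)
    (fun t => Z a b 1 (a + b + 5 - t)) b
    (fun t ht => ⟨tri_Z (by omega) (by omega) (by omega) (by omega) (by omega),
      Set.empty_subset _⟩)
    (fun t ht => swap_of (e := (a + 2, a + b + 5 - t)) (f := (1, a + b + 4 - t))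
      (by rw [mem_Z]; omega) (by rw [mem_Z]; omega) (by rw [mem_Z]; omega)
      (by rw [mem_Z]; omega)
      (by rintro ⟨i, j⟩; simp only [mem_Z, Prod.mk.injEq]; omega)
      (by rintro ⟨i, j⟩; simp only [mem_Z, Prod.mk.injEq]; omega))
  have s1 : Swap (cone (a + b + 4) (TA a b)) (Z a b (a + 1 - 0) (a + b + 5)) :=
    swap_of (e := (0, a + 3)) (f := (a + 1, a + 4))
      (by rw [mem_cone, mem_TA]; omega) (by rw [mem_cone, mem_TA]; omega) (by rw [mem_Z]; omega)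
      (by rw [mem_Z]; omega)
      (by rintro ⟨i, j⟩; simp only [mem_Z, mem_cone, mem_TA, Prod.mk.injEq]; omega)
      (by rintro ⟨i, j⟩; simp only [mem_Z, mem_cone, mem_TA, Prod.mk.injEq]; omega)
  have s2 : Swap (Z a b 1 (a + b + 5 - b)) (cone (a + b + 4) (TB a b)) :=
    swap_of (e := (a + 2, a + 5)) (f := (0, a + 3))
      (by rw [mem_Z]; omega) (by rw [mem_Z]; omega) (by rw [mem_cone, mem_TB]; omega)
      (by rw [mem_cone, mem_TB]; omega)
      (by rintro ⟨i, j⟩; simp only [mem_Z, mem_cone, mem_TB, Prod.mk.injEq]; omega)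
      (by rintro ⟨i, j⟩; simp only [mem_Z, mem_cone, mem_TB, Prod.mk.injEq]; omega)
  have e1 : Z a b (a + 1 - a) (a + b + 5) = Z a b 1 (a + b + 5 - 0) := by
    rw [show a + 1 - a = 1 by omega, Nat.sub_zero]
  rw [e1] at p1
  have p3 : R (a + b + 4 + 2) (1 + 1) ∅ (Z a b 1 (a + b + 5 - b)) (cone (a + b + 4) (TB a b))
      (0 + 1) :=
    R.cons _ _ _ _ (tri_Z (by omega) (by omega) (by omega) (by omega) (by omega))
      (Set.empty_subset _) s2 (R.nil _ _ (tri_TB a b).cone (Set.empty_subset _))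
  have := R.cons _ _ _ _ (tri_TA a b).cone (Set.empty_subset _) s1 ((p1.trans p2).trans p3)
  rwa [show a + b + (0 + 1) + 1 = a + b + 2 by omega] at this

/-- The data carried through the induction on `k`. -/
def Good (n k r L : ℕ) (T U : Set (ℕ × ℕ)) : Prop :=
  IsKTri n k T ∧ IsKTri n k U ∧
    (∃ S : Finset (ℕ × ℕ), S.card = r ∧ ∀ x ∈ S, x ∈ T ∧ x ∉ U) ∧
    R n k (T ∩ U) T U L ∧ ∀ l, R n k (T ∩ U) T U l → L ≤ l

theorem R.uncone' {n k : ℕ} {D X Y : Set (ℕ × ℕ)} {l : ℕ} (h : R (n + 2) (k + 1) D X Y l)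
    (hD : H88KTri.cone n ∅ ⊆ D) : R n k (H88KTri.uncone D) (H88KTri.uncone X)
      (H88KTri.uncone Y) l := by
  have mono : ∀ X : Set (ℕ × ℕ), D ⊆ X → H88KTri.uncone D ⊆ H88KTri.uncone X :=
    fun X hX e he => ⟨he.1, hX he.2⟩
  induction h with
  | nil X l h1 h2 => exact R.nil _ _ (h1.uncone (hD.trans h2)) (mono X h2)
  | cons X X' Y l h1 h2 h3 h4 ih =>
    obtain ⟨e, f, -, -, -, -, h5, h6⟩ := h3.spec
    have key : ∀ (X Y : Set (ℕ × ℕ)) (e : ℕ × ℕ), (∀ x ∈ X, x = e ∨ x ∈ Y) →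
        ∀ x ∈ H88KTri.uncone X, x = (e.1 - 1, e.2 - 2) ∨ x ∈ H88KTri.uncone Y := by
      rintro X Y e h x ⟨hx, hx'⟩
      rcases h _ hx' with h' | h'
      · left
        rw [← h']
        simp [lift]
      · exact Or.inr ⟨hx, h'⟩
    exact R.lazy (h1.uncone (hD.trans h2)) (mono X h2)
      (eq_or_swap (h1.uncone (hD.trans h2)) (h4.left.1.uncone (hD.trans h4.left.2))
        (key X X' e h5) (key X' X f h6)) ih

theorem Good.cone {n k r L : ℕ} {T U : Set (ℕ × ℕ)} (h : Good n k r L T U) :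
    Good (n + 2) (k + 1) r L (cone n T) (cone n U) := by
  obtain ⟨hT, hU, ⟨S, hS, hS'⟩, hR, hL⟩ := h
  refine ⟨hT.cone, hU.cone, ⟨S.image lift, ?_, ?_⟩, ?_, ?_⟩
  · rw [Finset.card_image_of_injective _ lift_inj, hS]
  · intro x hx
    obtain ⟨e, he, rfl⟩ := Finset.mem_image.1 hx
    have := (hT.1 e (hS' e he).1).1
    exact ⟨(lift_mem_cone this).2 (hS' e he).1, fun h => (hS' e he).2 ((lift_mem_cone this).1 h)⟩
  · rw [cone_inter]
    exact hR.cone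
  · intro l hl
    rw [cone_inter] at hl
    have := hl.uncone' (cone_mono (Set.empty_subset _))
    rw [uncone_cone fun e he => (hT.1 e he).1, uncone_cone fun e he => (hU.1 e he).1,
      uncone_cone fun e he => (hT.1 e he.1).1] at this
    exact hL l this

theorem good_one {a b : ℕ} (hab : a ≤ b) :
    Good (a + b + 4) 1 (a + b + 1) (a + b + 1 + a) (TA a b) (TB a b) := by
  refine ⟨tri_TA a b, tri_TB a b, ⟨SA a b, card_SA a b, mem_SA a b⟩, path_face a b, ?_⟩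
  intro l hl
  have := lower a b l (hl.weaken (Set.empty_subset _))
  omega

theorem good_all {a b : ℕ} (hab : a ≤ b) (j : ℕ) :
    ∃ T U : Set (ℕ × ℕ), Good (a + b + 6 + 2 * j) (2 + j) (a + b + 1) (a + b + 1 + a) T U ∧
      R (a + b + 6 + 2 * j) (2 + j) ∅ T U (a + b + 2) := by
  induction j with
  | zero => exact ⟨_, _, (good_one hab).cone, path_short a b⟩
  | succ j ih =>
    obtain ⟨T, U, h1, h2⟩ := ih
    exact ⟨_, _, h1.cone, h2.cone.weaken (Set.empty_subset _)⟩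

theorem main (k n : ℕ) (hk : 2 ≤ k) (hn : 2 * k + 4 ≤ n) :
    ∃ T U : {T : Set (ℕ × ℕ) // IsKTri n k T},
      (flipGraph n k).dist T U = n - 2 * k ∧
      IsLeast {l : ℕ | ∃ w : (flipGraph n k).Walk T U,
        (∀ X ∈ w.support, T.1 ∩ U.1 ⊆ X.1) ∧ w.length = l} (3 * (n - 2 * k) / 2 - 2) := by
  obtain ⟨j, rfl⟩ := Nat.exists_eq_add_of_le hk
  obtain ⟨a, b, hab, ha, rfl, hL⟩ : ∃ a b : ℕ, a ≤ b ∧ 1 ≤ a ∧ n = a + b + 6 + 2 * j ∧
      3 * (n - 2 * (2 + j)) / 2 - 2 = a + b + 1 + a :=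
    ⟨(n - 2 * (2 + j) - 2) / 2, n - 2 * (2 + j) - 2 - (n - 2 * (2 + j) - 2) / 2, by omega,
      by omega, by omega, by omega⟩
  obtain ⟨T, U, ⟨hT, hU, ⟨S, hS, hS'⟩, hR, hlow⟩, hshort⟩ := good_all hab j
  rw [hL]
  refine ⟨⟨T, hT⟩, ⟨U, hU⟩, ?_, ?_, ?_⟩
  · obtain ⟨w, hw, -⟩ := hshort.to_walk hT hU
    apply le_antisymm
    · have := SimpleGraph.dist_le w
      omega
    · obtain ⟨p, hp⟩ := w.reachable.exists_walk_length_eq_dist
      rw [← hp]
      by_cases hf : ∀ X ∈ p.support, T ∩ U ⊆ X.1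
      · have := hlow _ (R.of_walk p hf)
        omega
      · push Not at hf
        obtain ⟨X, hX, hX'⟩ := hf
        obtain ⟨v, hv, hv'⟩ := Set.not_subset.1 hX'
        have := card_lt_of_walk p (v := v) hv.2 hv.1 ⟨X, hX, hv'⟩ S hS'
        omega
  · obtain ⟨w, hw, hw'⟩ := hR.to_walk hT hU
    exact ⟨w, hw', le_antisymm hw (hlow _ (R.of_walk w hw'))⟩
  · rintro l ⟨w, hw, rfl⟩
    exact hlow _ (R.of_walk w hw)

end Pool.Agent.H88KTri
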