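import Pool.Agent.H88KTri.STT

/-!
The non-leaving-face property for n at most 2k + 3.
-/

namespace Pool.Agent.H88KTri

/-- The chord `(x, y)` belongs to the `(k+1)`-crossing of the `(2k+3)`-gon that avoids `v`. -/
def Kp (k v x y : ℕ) : Prop :=
  x < y ∧ y < 2 * k + 3 ∧ ((y = x + k + 1 ∧ (v < x ∨ y < v)) ∨ (y = x + k + 2 ∧ x < v ∧ v < y))

/-- The `(k+1)`-crossing avoiding `v`. -/
def KK (k v : ℕ) : Finset (ℕ × ℕ) :=
  (Finset.range (k + 1)).image fun i =>
    (if i < v then i else i + 1, if i + k + 1 < v then i + k + 1 else i + k + 2)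

theorem card_KK (k v : ℕ) : (KK k v).card = k + 1 := by
  rw [KK, Finset.card_image_of_injOn, Finset.card_range]
  intro s _ t _ h
  simp only [Prod.mk.injEq] at h
  have := h.1
  split_ifs at this <;> omega

theorem mem_KK {k v x y : ℕ} (hv : v < 2 * k + 3) : (x, y) ∈ KK k v ↔ Kp k v x y := by
  simp only [KK, Finset.mem_image, Finset.mem_range, Prod.mk.injEq, Kp]
  constructor
  · rintro ⟨i, hi, h1, h2⟩
    split_ifs at h1 h2 <;> omega
  · intro h
    refine ⟨if x < v then x else x - 1, ?_, ?_, ?_⟩ <;> split_ifs <;> omega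

theorem K1 {k v : ℕ} {X : Set (ℕ × ℕ)} (h : CrossFree k X) (hv : v < 2 * k + 3) :
    ∃ x y, Kp k v x y ∧ (x, y) ∉ X := by
  by_contra hc
  push Not at hc
  have := h (KK k v) (by
    rintro ⟨x, y⟩ hx
    exact hc x y ((mem_KK hv).1 hx)) (by
    rintro ⟨x, y⟩ hx ⟨p, q⟩ hp hne
    have h1 := (mem_KK hv).1 hx
    have h2 := (mem_KK hv).1 hp
    simp only [ne_eq, Prod.mk.injEq] at hne
    unfold Kp at h1 h2
    unfold Cross
    dsimp only
    omega)
  rw [card_KK] at this
  omega

theorem K2 {k : ℕ} {X : Set (ℕ × ℕ)} (hX : ∀ e ∈ X, e.1 < e.2 ∧ e.2 < 2 * k + 3)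
    (h : ∀ v < 2 * k + 3, ∃ x y, Kp k v x y ∧ (x, y) ∉ X) : CrossFree k X := by
  intro S' hS' hp'
  by_contra hc
  obtain ⟨S, hSS, hcard⟩ := Finset.exists_subset_card_eq (s := S') (n := k + 1) (by omega)
  have hS : (S : Set (ℕ × ℕ)) ⊆ X := (Finset.coe_subset.2 hSS).trans hS'
  have hp : (S : Set (ℕ × ℕ)).Pairwise Cross := hp'.mono (Finset.coe_subset.2 hSS)
  obtain ⟨v, hv, hvE⟩ : ∃ v ∈ Finset.range (2 * k + 3), v ∉ S.image Prod.fst ∪ S.image Prod.snd := by
    apply Finset.exists_mem_notMem_of_card_lt_card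
    have h1 := Finset.card_union_le (S.image Prod.fst) (S.image Prod.snd)
    have h2 := Finset.card_image_le (s := S) (f := Prod.fst)
    have h3 := Finset.card_image_le (s := S) (f := Prod.snd)
    rw [Finset.card_range]
    omega
  rw [Finset.mem_range] at hv
  have hne : ∀ f ∈ S, f.1 ≠ v ∧ f.2 ≠ v := by
    intro f hf
    constructor
    · intro h
      exact hvE (Finset.mem_union_left _ (Finset.mem_image.2 ⟨f, hf, h⟩))
    · intro h
      exact hvE (Finset.mem_union_right _ (Finset.mem_image.2 ⟨f, hf, h⟩))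
  have hsub : S ⊆ KK k v := by
    rintro ⟨x, y⟩ he
    rw [mem_KK hv]
    have hxy := hX _ (hS he)
    have hv' := hne _ he
    have hcr : ∀ f ∈ S.erase (x, y), Cross f (x, y) := fun f hf =>
      hp (Finset.mem_of_mem_erase hf) he (Finset.ne_of_mem_erase hf)
    have hce : (S.erase (x, y)).card = k := by
      rw [Finset.card_erase_of_mem he]
      omega
    have i1 : (S.erase (x, y)).card ≤ ((Finset.Ioo x y).erase v).card := by
      apply Finset.card_le_card_of_injOn (fun f => if x < f.1 then f.1 else f.2)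
      · intro f hf
        have h1 := hcr f hf
        have h2 := hne f (Finset.mem_of_mem_erase hf)
        unfold Cross at h1
        simp only [Finset.coe_erase, Finset.coe_Ioo, Set.mem_sdiff, Set.mem_Ioo,
          Set.mem_singleton_iff] at h1 ⊢
        split_ifs <;> omega
      · intro f hf g hg hfg
        by_contra hn
        have h1 := hp (Finset.mem_of_mem_erase hf) (Finset.mem_of_mem_erase hg) hn
        unfold Cross at h1
        simp only at hfg
        split_ifs at hfg <;> omega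
    have i2 : (S.erase (x, y)).card ≤
        ((Finset.range x ∪ Finset.Ioo y (2 * k + 3)).erase v).card := by
      apply Finset.card_le_card_of_injOn (fun f => if x < f.1 then f.2 else f.1)
      · intro f hf
        have h1 := hcr f hf
        have h2 := hne f (Finset.mem_of_mem_erase hf)
        have h3 := hX f (hS (Finset.mem_of_mem_erase hf))
        unfold Cross at h1
        simp only [Finset.coe_erase, Finset.coe_union, Finset.coe_range, Finset.coe_Ioo,
          Set.mem_sdiff, Set.mem_union, Set.mem_Iio, Set.mem_Ioo, Set.mem_singleton_iff] at h1 ⊢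
        split_ifs <;> omega
      · intro f hf g hg hfg
        by_contra hn
        have h1 := hp (Finset.mem_of_mem_erase hf) (Finset.mem_of_mem_erase hg) hn
        unfold Cross at h1
        simp only at hfg
        split_ifs at hfg <;> omega
    have c1 : (Finset.Ioo x y).card = y - x - 1 := Nat.card_Ioo x y
    have c2 : (Finset.range x ∪ Finset.Ioo y (2 * k + 3)).card ≤ x + (2 * k + 3 - y - 1) := by
      have := Finset.card_union_le (Finset.range x) (Finset.Ioo y (2 * k + 3))
      rwa [Finset.card_range, Nat.card_Ioo] at this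
    simp only at hxy hv'
    by_cases hin : x < v ∧ v < y
    · rw [Finset.card_erase_of_mem (Finset.mem_Ioo.2 hin)] at i1
      have := Finset.card_erase_le (s := Finset.range x ∪ Finset.Ioo y (2 * k + 3)) (a := v)
      unfold Kp
      omega
    · rw [Finset.card_erase_of_mem (s := Finset.range x ∪ Finset.Ioo y (2 * k + 3)) (by
        simp only [Finset.mem_union, Finset.mem_range, Finset.mem_Ioo]
        omega)] at i2
      have := Finset.card_erase_le (s := Finset.Ioo x y) (a := v)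
      have h5 : 0 < (Finset.range x ∪ Finset.Ioo y (2 * k + 3)).card :=
        Finset.card_pos.2 ⟨v, by
          simp only [Finset.mem_union, Finset.mem_range, Finset.mem_Ioo]
          omega⟩
      unfold Kp
      omega
  have heq : S = KK k v := Finset.eq_of_subset_of_card_le hsub (by rw [card_KK]; omega)
  obtain ⟨x, y, h1, h2⟩ := h v hv
  exact h2 (hS (by rw [heq]; exact (mem_KK hv).2 h1))

theorem IsKTri.mem_of_free {n k : ℕ} {T Y : Set (ℕ × ℕ)} (hT : IsKTri n k T) (hY : CrossFree k Y)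
    (h : T ⊆ Y) {e : ℕ × ℕ} (he : e ∈ Y) (h1 : e.1 < e.2) (h2 : e.2 < n) : e ∈ T := by
  by_contra hn
  exact hT.2.2 e h1 h2 hn (hY.mono (Set.insert_subset he h))

/-- If the distance is at most the number of chords to be removed, geodesics keep common chords. -/
theorem nlf_of_R {n k : ℕ} {T U : {T : Set (ℕ × ℕ) // IsKTri n k T}}
    (w : (flipGraph n k).Walk T U) (hw : w.length = (flipGraph n k).dist T U)
    (S : Finset (ℕ × ℕ)) (hS : ∀ x ∈ S, x ∈ T.1 ∧ x ∉ U.1) (hR : R n k ∅ T.1 U.1 S.card) :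
    ∀ X ∈ w.support, T.1 ∩ U.1 ⊆ X.1 := by
  rintro X hX v ⟨h1, h2⟩
  by_contra hn
  have h3 := card_lt_of_walk w h2 h1 ⟨X, hX, hn⟩ S hS
  obtain ⟨p, hp, -⟩ := hR.to_walk T.2 U.2
  have h4 : (flipGraph n k).dist T U ≤ p.length := SimpleGraph.dist_le p
  omega

theorem all_but_one {n k : ℕ} {T : Set (ℕ × ℕ)} (hT : IsKTri n k T) (hn : n ≤ 2 * k + 2) :
    ∃ d : ℕ × ℕ, ∀ e : ℕ × ℕ, e.1 < e.2 → e.2 < n → e = d ∨ e ∈ T := by
  obtain ⟨x, y, h1, h2⟩ := K1 hT.2.1 (v := 2 * k + 2) (by omega)
  refine ⟨(x, y), fun e he he' => ?_⟩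
  by_cases hed : e = (x, y)
  · exact Or.inl hed
  refine Or.inr (hT.mem_of_free (Y := {e | e.1 < e.2 ∧ e.2 < n ∧ e ≠ (x, y)}) (K2 ?_ ?_) ?_
    ⟨he, he', hed⟩ he he')
  · rintro f ⟨a, b, -⟩
    omega
  · intro v hv
    by_cases hv' : v = 2 * k + 2
    · exact ⟨x, y, hv' ▸ h1, fun h => h.2.2 rfl⟩
    · refine ⟨if k < v then k else k + 1, 2 * k + 2, ?_, fun h => ?_⟩
      · unfold Kp
        split_ifs <;> omega
      · have := h.2.1
        simp only at this
        omega
  · intro f hf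
    exact ⟨(hT.1 f hf).1, (hT.1 f hf).2, fun h => h2 (h ▸ hf)⟩

theorem nlf_tiny {n k : ℕ} (hn : n ≤ 2 * k + 2) {T U : {T : Set (ℕ × ℕ) // IsKTri n k T}}
    (w : (flipGraph n k).Walk T U) (hw : w.length = (flipGraph n k).dist T U) :
    ∀ X ∈ w.support, T.1 ∩ U.1 ⊆ X.1 := by
  obtain ⟨d, hd⟩ := all_but_one T.2 hn
  obtain ⟨d', hd'⟩ := all_but_one U.2 hn
  rcases eq_or_swap T.2 U.2 (fun x hx => hd' x (T.2.1 x hx).1 (T.2.1 x hx).2)
    (fun x hx => hd x (U.2.1 x hx).1 (U.2.1 x hx).2) with h | h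
  · refine nlf_of_R w hw ∅ (by simp) ?_
    rw [← h]
    exact R.nil _ _ T.2 (Set.empty_subset _)
  · obtain ⟨e, f, he, -, -, he', -, -⟩ := h.spec
    refine nlf_of_R w hw {e} (by simpa using ⟨he, he'⟩) ?_
    exact R.cons _ _ _ _ T.2 (Set.empty_subset _) h (R.nil _ 0 U.2 (Set.empty_subset _))

end Pool.Agent.H88KTri
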