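import Pool.Agent.H88KTri.Small

/-!
The case n = 2k + 3, and the failure for larger n.
-/

namespace Pool.Agent.H88KTri

/-- The long chord of the `(2k+3)`-gon whose long side starts at `s`. -/
def ch (k s : ℕ) : ℕ × ℕ :=
  if s = 0 then (k + 1, 2 * k + 2) else if s ≤ k + 1 then (s - 1, s + k + 1) else (s - k - 2, s - 1)

/-- The long side starting at `s` contains `v`. -/
def cov (k s v : ℕ) : Prop := (s ≤ v ∧ v ≤ s + k) ∨ v + (2 * k + 3) ≤ s + k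

/-- Cyclic distance from `a` to `b` is between 1 and `k + 1`. -/
def Dd (k a b : ℕ) : Prop := (a < b ∧ b ≤ a + k + 1) ∨ (b < a ∧ b + (2 * k + 3) ≤ a + k + 1)

/-- The triangle `a, b, c` contains the centre of the regular `(2k+3)`-gon. -/
def Sy (k a b c : ℕ) : Prop :=
  a < 2 * k + 3 ∧ b < 2 * k + 3 ∧ c < 2 * k + 3 ∧
    ((Dd k a b ∧ Dd k b c ∧ Dd k c a) ∨ (Dd k b a ∧ Dd k c b ∧ Dd k a c))

/-- All chords but three. -/
def Tr (k a b c : ℕ) : Set (ℕ × ℕ) :=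
  {e | e.1 < e.2 ∧ e.2 < 2 * k + 3 ∧ e ≠ ch k a ∧ e ≠ ch k b ∧ e ≠ ch k c}

theorem ch_inj {k s t : ℕ} (hs : s < 2 * k + 3) (ht : t < 2 * k + 3) (h : ch k s = ch k t) :
    s = t := by
  unfold ch at h
  split_ifs at h <;> simp only [Prod.mk.injEq] at h <;> omega

theorem ch_chord {k s : ℕ} (hs : s < 2 * k + 3) :
    (ch k s).1 < (ch k s).2 ∧ (ch k s).2 < 2 * k + 3 := by
  unfold ch
  split_ifs <;> dsimp only <;> omega

theorem Kp_ch {k s v : ℕ} (hs : s < 2 * k + 3) (hv : v < 2 * k + 3) :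
    Kp k v (ch k s).1 (ch k s).2 ↔ cov k s v := by
  unfold ch Kp cov
  split_ifs <;> dsimp only <;> omega

theorem Kp_ex {k v x y : ℕ} (h : Kp k v x y) : ∃ s < 2 * k + 3, (x, y) = ch k s := by
  unfold Kp at h
  by_cases h1 : y = x + k + 2
  · refine ⟨x + 1, by omega, ?_⟩
    unfold ch
    rw [if_neg (by omega), if_pos (by omega)]
    ext <;> dsimp only <;> omega
  by_cases h2 : y = 2 * k + 2
  · refine ⟨0, by omega, ?_⟩
    unfold ch
    simp only [if_true, Prod.mk.injEq]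
    omega
  · refine ⟨y + 1, by omega, ?_⟩
    unfold ch
    rw [if_neg (by omega), if_neg (by omega)]
    ext <;> dsimp only <;> omega

theorem Sy.rot {k a b c : ℕ} (h : Sy k a b c) : Sy k b c a := by
  unfold Sy at h ⊢
  tauto

theorem Sy.swap {k a b c : ℕ} (h : Sy k a b c) : Sy k b a c := by
  unfold Sy at h ⊢
  tauto

theorem Tr_rot (k a b c : ℕ) : Tr k a b c = Tr k b c a := by
  ext e
  simp only [Tr, Set.mem_ofPred_eq]
  tauto

theorem Tr_swap (k a b c : ℕ) : Tr k a b c = Tr k b a c := by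
  ext e
  simp only [Tr, Set.mem_ofPred_eq]
  tauto

theorem Sy.cover {k a b c v : ℕ} (h : Sy k a b c) (hv : v < 2 * k + 3) :
    cov k a v ∨ cov k b v ∨ cov k c v := by
  unfold Sy Dd at h
  unfold cov
  omega

theorem two_miss {k b c : ℕ} (hb : b < 2 * k + 3) (hc : c < 2 * k + 3) :
    ∃ v < 2 * k + 3, ¬ cov k b v ∧ ¬ cov k c v := by
  by_contra h
  push Not at h
  have h1 := h (if b = 0 then 2 * k + 2 else b - 1) (by split_ifs <;> omega)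
  have h2 := h (if b + k + 1 < 2 * k + 3 then b + k + 1 else b - (k + 2)) (by split_ifs <;> omega)
  unfold cov at h1 h2
  split_ifs at h1 h2 <;> omega

theorem free_Tr {k a b c : ℕ} (h : Sy k a b c) : CrossFree k (Tr k a b c) := by
  refine K2 (fun e he => ⟨he.1, he.2.1⟩) fun v hv => ?_
  rcases h.cover hv with h' | h' | h'
  · exact ⟨_, _, (Kp_ch h.1 hv).2 h', fun hh => hh.2.2.1 rfl⟩
  · exact ⟨_, _, (Kp_ch h.2.1 hv).2 h', fun hh => hh.2.2.2.1 rfl⟩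
  · exact ⟨_, _, (Kp_ch h.2.2.1 hv).2 h', fun hh => hh.2.2.2.2 rfl⟩

theorem not_free {k a b c : ℕ} (hb : b < 2 * k + 3) (hc : c < 2 * k + 3) :
    ¬ CrossFree k (insert (ch k a) (Tr k a b c)) := by
  intro hf
  obtain ⟨v, hv, h1, h2⟩ := two_miss hb hc
  obtain ⟨x, y, h3, h4⟩ := K1 hf hv
  apply h4
  by_cases h5 : (x, y) = ch k a
  · exact Or.inl h5
  refine Or.inr ⟨h3.1, h3.2.1, h5, fun h => h1 ?_, fun h => h2 ?_⟩
  · rw [← Kp_ch hb hv, ← h]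
    exact h3
  · rw [← Kp_ch hc hv, ← h]
    exact h3

theorem tri_Tr {k a b c : ℕ} (h : Sy k a b c) : IsKTri (2 * k + 3) k (Tr k a b c) := by
  refine ⟨fun e he => ⟨he.1, he.2.1⟩, free_Tr h, fun e h1 h2 h3 => ?_⟩
  by_cases ha : e = ch k a
  · rw [ha]
    exact not_free h.2.1 h.2.2.1
  by_cases hb : e = ch k b
  · rw [hb, Tr_rot]
    exact not_free h.2.2.1 h.1
  by_cases hc : e = ch k c
  · rw [hc, ← Tr_rot]
    exact not_free h.1 h.2.1
  · exact absurd ⟨h1, h2, ha, hb, hc⟩ h3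

theorem exists_Tr {k : ℕ} {T : Set (ℕ × ℕ)} (hT : IsKTri (2 * k + 3) k T) :
    ∃ a b c, Sy k a b c ∧ T = Tr k a b c := by
  classical
  have hcov : ∀ v < 2 * k + 3, ∃ s < 2 * k + 3, ch k s ∉ T ∧ cov k s v := by
    intro v hv
    obtain ⟨x, y, h1, h2⟩ := K1 hT.2.1 hv
    obtain ⟨s, hs, h3⟩ := Kp_ex h1
    refine ⟨s, hs, h3 ▸ h2, ?_⟩
    rw [← Kp_ch hs hv, ← h3]
    exact h1
  obtain ⟨s0, hs0, hs0', hc0⟩ := hcov (k + 1) (by omega)
  obtain ⟨a, ha, hmin⟩ := ((Finset.range (2 * k + 3)).filter fun s => ch k s ∉ T).exists_min_image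
    id ⟨s0, by simp only [Finset.mem_filter, Finset.mem_range]; exact ⟨hs0, hs0'⟩⟩
  simp only [Finset.mem_filter, Finset.mem_range, id] at ha hmin
  have ha' : a ≤ k + 1 := by
    have := hmin s0 ⟨hs0, hs0'⟩
    unfold cov at hc0
    omega
  obtain ⟨s1, hs1, hs1', hc1⟩ := hcov (a + k + 1) (by omega)
  unfold cov at hc1
  obtain ⟨b, hb, hmax⟩ := ((Finset.range (a + k + 2)).filter fun s => ch k s ∉ T).exists_max_image
    id ⟨s1, by simp only [Finset.mem_filter, Finset.mem_range]; exact ⟨by omega, hs1'⟩⟩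
  simp only [Finset.mem_filter, Finset.mem_range, id] at hb hmax
  have hb' : a < b := by
    have := hmax s1 ⟨by omega, hs1'⟩
    omega
  obtain ⟨c, hc, hc', hc2⟩ := hcov (if b + k + 1 < 2 * k + 3 then b + k + 1 else b - (k + 2))
    (by split_ifs <;> omega)
  have h1 := hmin c ⟨hc, hc'⟩
  have h2 : c < a + k + 2 → c ≤ b := fun h => hmax c ⟨h, hc'⟩
  have hS : Sy k a b c := by
    unfold cov at hc2
    unfold Sy Dd
    split_ifs at hc2 <;> omega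
  refine ⟨a, b, c, hS, hT.eq_of_subset (tri_Tr hS) fun e he => ?_⟩
  exact ⟨(hT.1 e he).1, (hT.1 e he).2, fun h => ha.2 (h ▸ he), fun h => hb.2 (h ▸ he),
    fun h => hc' (h ▸ he)⟩

theorem L2 {k a b c d : ℕ} (h : Sy k a c d) (h' : Sy k b c d) :
    R (2 * k + 3) k ∅ (Tr k a c d) (Tr k b c d) 1 := by
  refine R.lazy (tri_Tr h) (Set.empty_subset _) (eq_or_swap (tri_Tr h) (tri_Tr h')
    (e := ch k b) (f := ch k a) ?_ ?_) (R.nil _ 0 (tri_Tr h') (Set.empty_subset _))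
  · intro x hx
    by_cases hxb : x = ch k b
    · exact Or.inl hxb
    · exact Or.inr ⟨hx.1, hx.2.1, hxb, hx.2.2.2⟩
  · intro x hx
    by_cases hxb : x = ch k a
    · exact Or.inl hxb
    · exact Or.inr ⟨hx.1, hx.2.1, hxb, hx.2.2.2⟩

theorem L1' {k a a' b b' c : ℕ} (h : Sy k a a' c) (h' : Sy k b b' c) (h1 : Sy k b a' c) :
    R (2 * k + 3) k ∅ (Tr k a a' c) (Tr k b b' c) 2 := by
  have p1 := L2 h h1
  have p2 := L2 h1.swap h'.swap
  rw [Tr_swap k a', Tr_swap k b'] at p2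
  exact p1.trans p2

theorem Dd_tot {k a b : ℕ} (h : ¬ Dd k a b) (hab : a ≠ b) : Dd k b a := by
  unfold Dd at *
  omega

theorem tour {k a a' b b' c : ℕ} (h1 : Dd k c a) (h2 : Dd k a a') (h3 : Dd k a' c)
    (h4 : Dd k c b) (h5 : Dd k b b') (h6 : Dd k b' c) (_ha : a < 2 * k + 3) (ha' : a' < 2 * k + 3)
    (hb : b < 2 * k + 3) (hb' : b' < 2 * k + 3) (hc : c < 2 * k + 3) : Dd k b a' ∨ Dd k a b' := by
  by_contra hn
  push Not at hn
  have e1 := Dd_tot hn.1 (by rintro rfl; unfold Dd at h3 h4; omega)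
  have e2 := Dd_tot hn.2 (by rintro rfl; unfold Dd at h1 h6; omega)
  clear hn
  unfold Dd at *
  omega

theorem tour3 {k a a' a'' b : ℕ} (h1 : Dd k a a') (h2 : Dd k a' a'') (h3 : Dd k a'' a)
    (ha : a < 2 * k + 3) (ha' : a' < 2 * k + 3) (ha'' : a'' < 2 * k + 3) (hb : b < 2 * k + 3) :
    (Dd k b a' ∧ Dd k a'' b) ∨ (Dd k b a'' ∧ Dd k a b) ∨ (Dd k b a ∧ Dd k a' b) := by
  by_cases e1 : b = a
  · exact Or.inl (e1 ▸ ⟨h1, h3⟩)
  by_cases e2 : b = a'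
  · exact Or.inr (Or.inl (e2 ▸ ⟨h2, h1⟩))
  by_cases e3 : b = a''
  · exact Or.inr (Or.inr (e3 ▸ ⟨h3, h2⟩))
  by_cases c1 : Dd k b a <;> by_cases c2 : Dd k b a' <;> by_cases c3 : Dd k b a''
  · exfalso
    unfold Dd at *
    omega
  · exact Or.inl ⟨c2, Dd_tot c3 e3⟩
  · exact Or.inr (Or.inr ⟨c1, Dd_tot c2 e2⟩)
  · exact Or.inr (Or.inr ⟨c1, Dd_tot c2 e2⟩)
  · exact Or.inr (Or.inl ⟨c3, Dd_tot c1 e1⟩)
  · exact Or.inl ⟨c2, Dd_tot c3 e3⟩
  · exact Or.inr (Or.inl ⟨c3, Dd_tot c1 e1⟩)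
  · exfalso
    have f1 := Dd_tot c1 e1
    have f2 := Dd_tot c2 e2
    have f3 := Dd_tot c3 e3
    clear c1 c2 c3
    unfold Dd at *
    omega

theorem L1 {k a a' b b' c : ℕ} (h : Sy k a a' c) (h' : Sy k b b' c) :
    R (2 * k + 3) k ∅ (Tr k a a' c) (Tr k b b' c) 2 := by
  have : Sy k b a' c ∨ Sy k b a c ∨ Sy k b' a' c ∨ Sy k b' a c := by
    obtain ⟨ha, ha', hc, h | h⟩ := h <;> obtain ⟨hb, hb', -, h' | h'⟩ := h'
    · rcases tour h.2.2 h.1 h.2.1 h'.2.2 h'.1 h'.2.1 ha ha' hb hb' hc with t | t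
      · exact Or.inl ⟨hb, ha', hc, Or.inl ⟨t, h.2.1, h'.2.2⟩⟩
      · exact Or.inr (Or.inr (Or.inr ⟨hb', ha, hc, Or.inr ⟨t, h.2.2, h'.2.1⟩⟩))
    · rcases tour h.2.2 h.1 h.2.1 h'.2.1 h'.1 h'.2.2 ha ha' hb' hb hc with t | t
      · exact Or.inr (Or.inr (Or.inl ⟨hb', ha', hc, Or.inl ⟨t, h.2.1, h'.2.1⟩⟩))
      · exact Or.inr (Or.inl ⟨hb, ha, hc, Or.inr ⟨t, h.2.2, h'.2.2⟩⟩)
    · rcases tour h.2.1 h.1 h.2.2 h'.2.2 h'.1 h'.2.1 ha' ha hb hb' hc with t | t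
      · exact Or.inr (Or.inl ⟨hb, ha, hc, Or.inl ⟨t, h.2.2, h'.2.2⟩⟩)
      · exact Or.inr (Or.inr (Or.inl ⟨hb', ha', hc, Or.inr ⟨t, h.2.1, h'.2.1⟩⟩))
    · rcases tour h.2.1 h.1 h.2.2 h'.2.1 h'.1 h'.2.2 ha' ha hb' hb hc with t | t
      · exact Or.inr (Or.inr (Or.inr ⟨hb', ha, hc, Or.inl ⟨t, h.2.2, h'.2.1⟩⟩))
      · exact Or.inl ⟨hb, ha', hc, Or.inr ⟨t, h.2.1, h'.2.2⟩⟩
  rcases this with h1 | h1 | h1 | h1
  · exact L1' h h' h1
  · rw [Tr_swap k a]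
    exact L1' h.swap h' h1
  · rw [Tr_swap k b]
    exact L1' h h'.swap h1
  · rw [Tr_swap k a, Tr_swap k b]
    exact L1' h.swap h'.swap h1

theorem L0' {k a a' a'' b b' b'' : ℕ} (h : Sy k a a' a'') (h' : Sy k b b' b'')
    (h1 : Sy k b a' a'') : R (2 * k + 3) k ∅ (Tr k a a' a'') (Tr k b b' b'') 3 := by
  have p1 := L2 h h1
  have p2 := L1 h1.rot h'.rot
  rw [← Tr_rot k b a' a'', ← Tr_rot k b b' b''] at p2
  exact p1.trans p2

theorem L0 {k a a' a'' b b' b'' : ℕ} (h : Sy k a a' a'') (h' : Sy k b b' b'') :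
    R (2 * k + 3) k ∅ (Tr k a a' a'') (Tr k b b' b'') 3 := by
  have hb := h'.1
  have : Sy k b a' a'' ∨ Sy k b a'' a ∨ Sy k b a a' := by
    obtain ⟨ha, ha', ha'', h | h⟩ := h
    · rcases tour3 h.1 h.2.1 h.2.2 ha ha' ha'' hb with t | t | t
      · exact Or.inl ⟨hb, ha', ha'', Or.inl ⟨t.1, h.2.1, t.2⟩⟩
      · exact Or.inr (Or.inl ⟨hb, ha'', ha, Or.inl ⟨t.1, h.2.2, t.2⟩⟩)
      · exact Or.inr (Or.inr ⟨hb, ha, ha', Or.inl ⟨t.1, h.1, t.2⟩⟩)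
    · rcases tour3 h.1 h.2.2 h.2.1 ha' ha ha'' hb with t | t | t
      · exact Or.inr (Or.inl ⟨hb, ha'', ha, Or.inr ⟨t.2, h.2.2, t.1⟩⟩)
      · exact Or.inl ⟨hb, ha', ha'', Or.inr ⟨t.2, h.2.1, t.1⟩⟩
      · exact Or.inr (Or.inr ⟨hb, ha, ha', Or.inr ⟨t.2, h.1, t.1⟩⟩)
  rcases this with h1 | h1 | h1
  · exact L0' h h' h1
  · rw [Tr_rot]
    exact L0' h.rot h' h1
  · rw [← Tr_rot]
    exact L0' h.rot.rot h' h1

theorem Sy.ne {k a b c : ℕ} (h : Sy k a b c) : a ≠ b ∧ a ≠ c ∧ b ≠ c := by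
  unfold Sy Dd at h
  omega

theorem ch_mem {k a b c s : ℕ} (h : Sy k a b c) (hs : s < 2 * k + 3) (h1 : s ≠ a) (h2 : s ≠ b)
    (h3 : s ≠ c) : ch k s ∈ Tr k a b c :=
  ⟨(ch_chord hs).1, (ch_chord hs).2, fun e => h1 (ch_inj hs h.1 e),
    fun e => h2 (ch_inj hs h.2.1 e), fun e => h3 (ch_inj hs h.2.2.1 e)⟩

/-- The distance is at most the number of chords to be removed. -/
def Tight (k : ℕ) (T U : Set (ℕ × ℕ)) : Prop :=
  ∃ S : Finset (ℕ × ℕ), (∀ x ∈ S, x ∈ T ∧ x ∉ U) ∧ R (2 * k + 3) k ∅ T U S.card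

theorem T2 {k a b c d : ℕ} (h : Sy k a c d) (h' : Sy k b c d) :
    Tight k (Tr k a c d) (Tr k b c d) := by
  by_cases hab : b = a
  · subst hab
    exact ⟨∅, by simp, R.nil _ _ (tri_Tr h) (Set.empty_subset _)⟩
  · refine ⟨{ch k b}, ?_, L2 h h'⟩
    intro x hx
    rw [Finset.mem_singleton.1 hx]
    exact ⟨ch_mem h h'.1 hab h'.ne.1 h'.ne.2.1, fun hh => hh.2.2.1 rfl⟩

theorem T1 {k a a' b b' c : ℕ} (h : Sy k a a' c) (h' : Sy k b b' c) :
    Tight k (Tr k a a' c) (Tr k b b' c) := by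
  by_cases c1 : b' = a'
  · subst c1
    exact T2 h h'
  by_cases c2 : b' = a
  · subst c2
    rw [Tr_swap k b']
    exact T2 h.swap h'
  by_cases c3 : b = a'
  · subst c3
    rw [Tr_swap k b b']
    exact T2 h h'.swap
  by_cases c4 : b = a
  · subst c4
    rw [Tr_swap k b a', Tr_swap k b b']
    exact T2 h.swap h'.swap
  · refine ⟨{ch k b, ch k b'}, ?_, ?_⟩
    · intro x hx
      simp only [Finset.mem_insert, Finset.mem_singleton] at hx
      rcases hx with rfl | rfl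
      · exact ⟨ch_mem h h'.1 c4 c3 h'.ne.2.1, fun hh => hh.2.2.1 rfl⟩
      · exact ⟨ch_mem h h'.2.1 c2 c1 h'.ne.2.2, fun hh => hh.2.2.2.1 rfl⟩
    · rw [Finset.card_pair fun e => h'.ne.1 (ch_inj h'.1 h'.2.1 e)]
      exact L1 h h'

theorem T0' {k a a' a'' b b' c : ℕ} (h : Sy k a a' a'') (h' : Sy k b b' c)
    (hc : c = a ∨ c = a' ∨ c = a'') : Tight k (Tr k a a' a'') (Tr k b b' c) := by
  rcases hc with rfl | rfl | rfl
  · rw [Tr_rot]
    exact T1 h.rot h'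
  · rw [← Tr_rot k a'']
    exact T1 h.rot.rot h'
  · exact T1 h h'

theorem T0 {k a a' a'' b b' b'' : ℕ} (h : Sy k a a' a'') (h' : Sy k b b' b'') :
    Tight k (Tr k a a' a'') (Tr k b b' b'') := by
  by_cases c1 : b'' = a ∨ b'' = a' ∨ b'' = a''
  · exact T0' h h' c1
  by_cases c2 : b = a ∨ b = a' ∨ b = a''
  · rw [Tr_rot k b]
    exact T0' h h'.rot c2
  by_cases c3 : b' = a ∨ b' = a' ∨ b' = a''
  · rw [← Tr_rot k b'']
    exact T0' h h'.rot.rot c3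
  push Not at c1 c2 c3
  refine ⟨{ch k b, ch k b', ch k b''}, ?_, ?_⟩
  · intro x hx
    simp only [Finset.mem_insert, Finset.mem_singleton] at hx
    rcases hx with rfl | rfl | rfl
    · exact ⟨ch_mem h h'.1 c2.1 c2.2.1 c2.2.2, fun hh => hh.2.2.1 rfl⟩
    · exact ⟨ch_mem h h'.2.1 c3.1 c3.2.1 c3.2.2, fun hh => hh.2.2.2.1 rfl⟩
    · exact ⟨ch_mem h h'.2.2.1 c1.1 c1.2.1 c1.2.2, fun hh => hh.2.2.2.2 rfl⟩
  · rw [Finset.card_eq_three.2 ⟨_, _, _, fun e => h'.ne.1 (ch_inj h'.1 h'.2.1 e),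
      fun e => h'.ne.2.1 (ch_inj h'.1 h'.2.2.1 e), fun e => h'.ne.2.2 (ch_inj h'.2.1 h'.2.2.1 e),
      rfl⟩]
    exact L0 h h'

theorem nlf_three {k : ℕ} {T U : {T : Set (ℕ × ℕ) // IsKTri (2 * k + 3) k T}}
    (w : (flipGraph (2 * k + 3) k).Walk T U) (hw : w.length = (flipGraph (2 * k + 3) k).dist T U) :
    ∀ X ∈ w.support, T.1 ∩ U.1 ⊆ X.1 := by
  obtain ⟨a, a', a'', h, hT⟩ := exists_Tr T.2
  obtain ⟨b, b', b'', h', hU⟩ := exists_Tr U.2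
  obtain ⟨S, hS, hR⟩ := T0 h h'
  rw [← hT, ← hU] at hS hR
  exact nlf_of_R w hw S hS hR

theorem nlf_zero {n : ℕ} {T : Set (ℕ × ℕ)} (hT : IsKTri n 0 T) : T = ∅ := by
  refine Set.eq_empty_of_forall_notMem fun e he => ?_
  have := hT.2.1 {e} (by simpa using he) (by simp)
  simp at this

theorem path_short' (a b : ℕ) :
    ∃ X : Set (ℕ × ℕ), (0, a + 3) ∉ X ∧ Swap (cone (a + b + 4) (TA a b)) X ∧
      R (a + b + 4 + 2) (1 + 1) ∅ X (cone (a + b + 4) (TB a b)) (a + b + 1) := by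
  have p1 := R.chain (n := a + b + 4 + 2) (k := 1 + 1) (C := ∅)
    (fun t => Z a b (a + 1 - t) (a + b + 5)) a
    (fun t ht => ⟨tri_Z (by omega) (by omega) (by omega) (by omega) (by omega),
      Set.empty_subset _⟩)
    (fun t ht => swap_of (e := (a + 1 - t, a + b + 5)) (f := (a - t, a + 4))
      (by rw [mem_Z]; omega) (by rw [mem_Z]; omega) (by rw [mem_Z]; omega)
      (by rw [mem_Z]; omega)
      (by rintro ⟨i, j⟩; simp only [mem_Z, Prod.mk.injEq]; omega)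
      (by rintro ⟨i, j⟩; simp only [mem_Z, Prod.mk.injEq]; omega))
  have p2 := R.chain (n := a + b + 4 + 2) (k := 1 + 1) (C := ∅)
    (fun t => Z a b 1 (a + b + 5 - t)) b
    (fun t ht => ⟨tri_Z (by omega) (by omega) (by omega) (by omega) (by omega),
      Set.empty_subset _⟩)
    (fun t ht => swap_of (e := (a + 2, a + b + 5 - t)) (f := (1, a + b + 4 - t))
      (by rw [mem_Z]; omega) (by rw [mem_Z]; omega) (by rw [mem_Z]; omega)
      (by rw [mem_Z]; omega)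
      (by rintro ⟨i, j⟩; simp only [mem_Z, Prod.mk.injEq]; omega)
      (by rintro ⟨i, j⟩; simp only [mem_Z, Prod.mk.injEq]; omega))
  have s1 : Swap (cone (a + b + 4) (TA a b)) (Z a b (a + 1 - 0) (a + b + 5)) :=
    swap_of (e := (0, a + 3)) (f := (a + 1, a + 4))
      (by rw [mem_cone, mem_TA]; omega) (by rw [mem_cone, mem_TA]; omega) (by rw [mem_Z]; omega)
      (by rw [mem_Z]; omega)
      (by rintro ⟨i, j⟩; simp only [mem_Z, mem_cone, mem_TA, Prod.mk.injEq]; omega)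
      (by rintro ⟨i, j⟩; simp only [mem_Z, mem_cone, mem_TA, Prod.mk.injEq]; omega)
  have s2 : Swap (Z a b 1 (a + b + 5 - b)) (cone (a + b + 4) (TB a b)) :=
    swap_of (e := (a + 2, a + 5)) (f := (0, a + 3))
      (by rw [mem_Z]; omega) (by rw [mem_Z]; omega) (by rw [mem_cone, mem_TB]; omega)
      (by rw [mem_cone, mem_TB]; omega)
      (by rintro ⟨i, j⟩; simp only [mem_Z, mem_cone, mem_TB, Prod.mk.injEq]; omega)
      (by rintro ⟨i, j⟩; simp only [mem_Z, mem_cone, mem_TB, Prod.mk.injEq]; omega)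
  have e1 : Z a b (a + 1 - a) (a + b + 5) = Z a b 1 (a + b + 5 - 0) := by
    rw [show a + 1 - a = 1 by omega, Nat.sub_zero]
  rw [e1] at p1
  have p3 : R (a + b + 4 + 2) (1 + 1) ∅ (Z a b 1 (a + b + 5 - b)) (cone (a + b + 4) (TB a b))
      (0 + 1) :=
    R.cons _ _ _ _ (tri_Z (by omega) (by omega) (by omega) (by omega) (by omega))
      (Set.empty_subset _) s2 (R.nil _ _ (tri_TB a b).cone (Set.empty_subset _))
  exact ⟨_, by rw [mem_Z]; omega, s1, (p1.trans p2).trans p3⟩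

theorem good_all' {a b : ℕ} (hab : a ≤ b) (j : ℕ) :
    ∃ (T U X : Set (ℕ × ℕ)) (v : ℕ × ℕ),
      Good (a + b + 6 + 2 * j) (2 + j) (a + b + 1) (a + b + 1 + a) T U ∧ v ∈ T ∧ v ∈ U ∧ v ∉ X ∧
      Swap T X ∧ R (a + b + 6 + 2 * j) (2 + j) ∅ X U (a + b + 1) := by
  induction j with
  | zero =>
    obtain ⟨X, h1, h2, h3⟩ := path_short' a b
    exact ⟨_, _, X, (0, a + 3), (good_one hab).cone, Or.inl ⟨rfl, by simp, by simp only; omega⟩,
      Or.inl ⟨rfl, by simp, by simp only; omega⟩, h1, h2, h3⟩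
  | succ j ih =>
    obtain ⟨T, U, X, v, h1, h2, h3, h4, h5, h6⟩ := ih
    have hv := (h1.1.1 v h2).1
    exact ⟨_, _, cone _ X, lift v, h1.cone, (lift_mem_cone hv).2 h2, (lift_mem_cone hv).2 h3,
      fun h => h4 ((lift_mem_cone hv).1 h), h5.cone h1.1 h6.left.1,
      h6.cone.weaken (Set.empty_subset _)⟩

theorem fails (k n : ℕ) (hk : 2 ≤ k) (hn : 2 * k + 4 ≤ n) :
    ∃ (T U : {T : Set (ℕ × ℕ) // IsKTri n k T}) (w : (flipGraph n k).Walk T U),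
      w.length = (flipGraph n k).dist T U ∧ ∃ X ∈ w.support, ¬ T.1 ∩ U.1 ⊆ X.1 := by
  obtain ⟨j, rfl⟩ := Nat.exists_eq_add_of_le hk
  obtain ⟨a, b, hab, ha, rfl⟩ : ∃ a b : ℕ, a ≤ b ∧ 1 ≤ a ∧ n = a + b + 6 + 2 * j :=
    ⟨1, n - 2 * j - 7, by omega, le_rfl, by omega⟩
  obtain ⟨T, U, X, v, ⟨hT, hU, ⟨S, hS, hS'⟩, -, hlow⟩, h2, h3, h4, h5, h6⟩ := good_all' hab j
  obtain ⟨w, hw, -⟩ := h6.to_walk h6.left.1 hU
  have hadj : (flipGraph _ _).Adj ⟨T, hT⟩ ⟨X, h6.left.1⟩ := h5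
  refine ⟨⟨T, hT⟩, ⟨U, hU⟩, SimpleGraph.Walk.cons hadj w, ?_, ⟨X, h6.left.1⟩, by simp,
    fun h => h4 (h ⟨h2, h3⟩)⟩
  apply le_antisymm _ (SimpleGraph.dist_le _)
  obtain ⟨p, hp⟩ := (SimpleGraph.Walk.cons hadj w).reachable.exists_walk_length_eq_dist
  rw [← hp, SimpleGraph.Walk.length_cons]
  by_cases hf : ∀ X ∈ p.support, T ∩ U ⊆ X.1
  · have := hlow _ (R.of_walk p hf)
    omega
  · push Not at hf
    obtain ⟨Y, hY, hY'⟩ := hf
    obtain ⟨u, hu, hu'⟩ := Set.not_subset.1 hY'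
    have := card_lt_of_walk p (v := u) hu.2 hu.1 ⟨Y, hY, hu'⟩ S hS'
    omega

theorem classification (k n : ℕ) :
    (∀ (T U : {T : Set (ℕ × ℕ) // IsKTri n k T}) (w : (flipGraph n k).Walk T U),
      w.length = (flipGraph n k).dist T U → ∀ X ∈ w.support, T.1 ∩ U.1 ⊆ X.1) ↔
      (k ≤ 1 ∨ n ≤ 2 * k + 3) := by
  constructor
  · intro h
    by_contra hc
    obtain ⟨T, U, w, hw, X, hX, hX'⟩ := fails k n (by omega) (by omega)
    exact hX' (h T U w hw X hX)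
  · intro h T U w hw
    by_cases h1 : n ≤ 2 * k + 2
    · exact nlf_tiny h1 w hw
    by_cases h2 : n = 2 * k + 3
    · subst h2
      exact nlf_three w hw
    by_cases h3 : k = 1
    · subst h3
      exact nlf_one w hw
    · obtain rfl : k = 0 := by omega
      intro X _
      rw [nlf_zero T.2]
      simp

end Pool.Agent.H88KTri
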